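import Pool.Agent.E8helper22.SZ.Stm

/-! Project SZ: the finite core of the construction. -/

set_option autoImplicit false

namespace Pool.Agent.E8helper22.SZ

open Finset

theorem card_S (p B : ℕ) (hp : 0 < p) :
    ((Icc 1 (p * B)).filter (fun b => ¬ p ∣ b)).card = (p - 1) * B := by
  have h1 := Nat.Ioc_filter_dvd_card_eq_div (p * B) p
  have h0 : Icc 1 (p * B) = Ioc 0 (p * B) := by
    ext b; simp only [mem_Icc, mem_Ioc]; omega
  have h2 := Finset.card_filter_add_card_filter_not (s := Ioc 0 (p * B)) (fun b => p ∣ b)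
  rw [h1, Nat.mul_div_cancel_left _ hp, Nat.card_Ioc] at h2
  rw [h0, Nat.sub_mul]
  omega

theorem core (hHALF : S_HALF) (hPOS : S_POS) (hTAU : S_TAU) (hLSUM : S_LSUM) (hCOMB : S_COMB)
    (q : ℕ) [NeZero q] (χ : DirichletCharacter ℂ q) (hq : 8 < q) (hχ : RealPrim q χ)
    (p q' : ℕ) (hp : p.Prime) (hp2 : p ≠ 2) (hqp : q = p * q') (hpq : ¬ p ∣ q')
    (k : ℕ) (hk : 1 ≤ k) (W : ℕ) (hW : W = q' * ∏ r ∈ (Nat.primesBelow (k + 1)).erase p, r)
    (B X D : ℕ) (hB : 1 ≤ B) (hD : 0 < D) (η : ℝ) (hη0 : 0 < η) (hη1 : η ≤ 1)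
    (h2 : ((p * B : ℕ) : ℝ) * (‖χ.LFunction 1‖ * (1 + Real.log W) + 2 * q * W / D) + D +
      p * ((X : ℝ) + W * (p * B : ℕ)) / D ≤ η * ((p - 1) * B : ℕ))
    (h3 : (q : ℝ) * (2 ^ k / (3 : ℝ) ^ (3 * (k : ℝ) / 4)) + X * (2 ^ k * η ^ ((k : ℝ) / 4)) < 1) :
    ∃ A : Finset ℕ, Admissible A ∧ A.card ≤ k ∧ (∀ a ∈ A, a ≤ W * (p * B)) ∧
      ∀ n, 0 < n → n ≤ X → ∃ a ∈ A, ¬ (n + a).Prime := by
  classical
  obtain ⟨w, hw⟩ : ∃ w, w = ∏ r ∈ (Nat.primesBelow (k + 1)).erase p, r := ⟨_, rfl⟩
  rw [← hw] at hW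
  have hprime : ∀ r ∈ (Nat.primesBelow (k + 1)).erase p, r.Prime := fun r hr =>
    Nat.prime_of_mem_primesBelow (Finset.mem_of_mem_erase hr)
  have hw0 : 0 < w := by
    rw [hw]
    exact Finset.prod_pos fun r hr => (hprime r hr).pos
  have hpw : ¬ p ∣ w := by
    intro h
    rw [hw] at h
    obtain ⟨r, hr, hdv⟩ := (hp.prime.dvd_finsetProd_iff _).1 h
    have h4 := (Nat.prime_dvd_prime_iff_eq hp (hprime r hr)).1 hdv
    exact (Finset.ne_of_mem_erase hr) h4.symm
  have hq0 : 0 < q := by omega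
  have hq'0 : 0 < q' := by
    rcases Nat.eq_zero_or_pos q' with h | h
    · subst h; simp at hqp; omega
    · exact h
  have hW0 : 0 < W := by rw [hW]; positivity
  have hpW : ¬ p ∣ W := by
    rw [hW]
    intro h
    rcases (hp.dvd_mul).1 h with h | h
    · exact hpq h
    · exact hpw h
  have hp1 : 0 < p - 1 := by have := hp.two_le; omega
  set S : Finset ℕ := (Icc 1 (p * B)).filter (fun b => ¬ p ∣ b) with hS
  have hcS : S.card = (p - 1) * B := card_S p B hp.pos
  have hSne : S.Nonempty := by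
    rw [← Finset.card_pos, hcS]; positivity
  let E : ℕ → Finset ℕ := fun j => S.filter (fun b => cv χ (j + W * b) = -1)
  let G : ℕ → Finset ℕ := fun n => S.filter (fun b => (n + W * b).Prime ∧ cv χ (n + W * b) ≠ -1)
  let N : Finset ℕ := (Icc 1 X).filter (fun n => Nat.Coprime n W)
  have hE : ∀ j ∈ range q, E j ⊆ S ∧ 2 * (E j).card ≤ S.card := by
    intro j _
    refine ⟨Finset.filter_subset _ _, ?_⟩
    have h := hHALF q p q' w χ hq0 hχ hp hp2 hqp hpq hpw j B
    rw [← hW] at h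
    have e : E j = (Icc 1 (p * B)).filter (fun b => ¬ p ∣ b ∧ cv χ (j + W * b) = -1) := by
      simp only [E, hS, Finset.filter_filter]
    rw [e]
    exact h
  have hG : ∀ n ∈ N, G n ⊆ S ∧ ((G n).card : ℝ) ≤ η * S.card := by
    intro n hn
    refine ⟨Finset.filter_subset _ _, ?_⟩
    obtain ⟨hn1, hn2⟩ := Finset.mem_filter.1 hn
    rw [Finset.mem_Icc] at hn1
    have hsub : G n ⊆ Icc 1 (p * B) := (Finset.filter_subset _ _).trans (Finset.filter_subset _ _)
    have t1 : ((G n).card : ℝ) ≤ ∑ b ∈ G n, tau χ (n + W * b) := by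
      rw [← nsmul_one, ← Finset.sum_const]
      refine Finset.sum_le_sum fun b hb => ?_
      obtain ⟨-, hb2, hb3⟩ := Finset.mem_filter.1 hb
      exact ((hPOS q χ hq0 hχ _ hb2.pos).2 hb2 hb3)
    have t2 : ∑ b ∈ G n, tau χ (n + W * b) ≤ ∑ b ∈ Icc 1 (p * B), tau χ (n + W * b) :=
      Finset.sum_le_sum_of_subset_of_nonneg hsub fun b _ _ =>
        (hPOS q χ hq0 hχ _ (by omega)).1
    have t3 := hTAU q p q' w χ hq0 hχ hp hqp hw0 hpw n (p * B) D (by omega) hD (by rwa [← hW])
    rw [← hW] at t3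
    have t4 := hLSUM q W D χ (by omega) hχ hW0 hD
    have t5 : ((p * B : ℕ) : ℝ) * ∑ d ∈ (Icc 1 D).filter (fun d => Nat.Coprime d W), cv χ d / d ≤
        ((p * B : ℕ) : ℝ) * (‖χ.LFunction 1‖ * (1 + Real.log W) + 2 * q * W / D) :=
      mul_le_mul_of_nonneg_left t4 (Nat.cast_nonneg _)
    have t6 : (p : ℝ) * ((n : ℝ) + q' * w * (p * B : ℕ)) / D ≤
        p * ((X : ℝ) + W * (p * B : ℕ)) / D := by
      have : (n : ℝ) ≤ X := by exact_mod_cast hn1.2
      have hWc : (W : ℝ) = q' * w := by rw [hW]; push_cast; ring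
      rw [hWc]
      gcongr
    rw [hcS]
    linarith
  obtain ⟨f, hfS, hfE, hfG⟩ := hCOMB S (range q) N k E G η hSne hη0 hη1 hE hG (by
    rw [Finset.card_range]
    have hNc : (N.card : ℝ) ≤ X := by
      have : N.card ≤ (Icc 1 X).card := Finset.card_filter_le _ _
      rw [Nat.card_Icc] at this
      have h4 : N.card ≤ X := by omega
      exact_mod_cast h4
    have h5 : (0 : ℝ) ≤ 2 ^ k * η ^ ((k : ℝ) / 4) := by positivity
    have := mul_le_mul_of_nonneg_right hNc h5
    linarith)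
  have hf1 : ∀ i, 1 ≤ f i ∧ f i ≤ p * B ∧ ¬ p ∣ f i := by
    intro i
    obtain ⟨h4, h5⟩ := Finset.mem_filter.1 (hfS i)
    rw [Finset.mem_Icc] at h4
    exact ⟨h4.1, h4.2, h5⟩
  refine ⟨univ.image (fun i : Fin k => W * f i), ?_, ?_, ?_, ?_⟩
  · intro r hr
    by_cases hrk : k < r
    · -- pigeonhole
      by_contra hcon
      push Not at hcon
      choose g hg1 hg2 using hcon
      have hcard : (range r).card ≤ (univ.image (fun i : Fin k => W * f i)).card := by
        refine Finset.card_le_card_of_injOn g (fun c _ => hg1 c) ?_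
        intro c hc c' hc' he
        have h4 := hg2 c
        have h5 := hg2 c'
        rw [he] at h4
        have h6 : c ≡ c' [MOD r] := h4.symm.trans h5
        rw [Finset.mem_coe, Finset.mem_range] at hc hc'
        exact Nat.ModEq.eq_of_lt_of_lt h6 hc hc'
      have h7 : (univ.image (fun i : Fin k => W * f i)).card ≤ k := by
        refine Finset.card_image_le.trans ?_
        simp
      rw [Finset.card_range] at hcard
      omega
    · by_cases hrp : r = p
      · subst hrp
        refine ⟨0, ?_⟩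
        intro a ha hmod
        obtain ⟨i, -, rfl⟩ := Finset.mem_image.1 ha
        have h4 : r ∣ W * f i := (Nat.modEq_zero_iff_dvd).1 hmod
        rcases (hr.dvd_mul).1 h4 with h5 | h5
        · exact hpW h5
        · exact (hf1 i).2.2 h5
      · refine ⟨1, ?_⟩
        intro a ha hmod
        obtain ⟨i, -, rfl⟩ := Finset.mem_image.1 ha
        have h4 : r ∣ W := by
          rw [hW, hw]
          refine Dvd.dvd.mul_left (Finset.dvd_prod_of_mem _ ?_) _
          rw [Finset.mem_erase, Nat.mem_primesBelow]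
          exact ⟨hrp, by omega, hr⟩
        have h5 : W * f i ≡ 0 [MOD r] := (Nat.modEq_zero_iff_dvd).2 (h4.mul_right _)
        have h6 : 0 ≡ 1 [MOD r] := h5.symm.trans hmod
        have h7 := (Nat.modEq_iff_dvd' (by omega)).1 h6
        have h8 := hr.one_lt
        have := Nat.le_of_dvd (by omega) h7
        omega
  · refine Finset.card_image_le.trans ?_
    simp
  · intro a ha
    obtain ⟨i, -, rfl⟩ := Finset.mem_image.1 ha
    exact Nat.mul_le_mul_left _ (hf1 i).2.1
  · intro n hn0 hnX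
    by_contra hcon
    push Not at hcon
    have hall : ∀ i : Fin k, (n + W * f i).Prime := fun i =>
      hcon _ (Finset.mem_image_of_mem _ (Finset.mem_univ i))
    -- n is prime to W
    have hcop : Nat.Coprime n W := by
      by_contra hnc
      obtain ⟨r, hr, hrn, hrW⟩ := Nat.Prime.not_coprime_iff_dvd.1 hnc
      have i : Fin k := ⟨0, hk⟩
      have h4 : r ∣ n + W * f i := (Nat.dvd_add_right hrn).2 (hrW.mul_right _)
      have h5 := (Nat.prime_dvd_prime_iff_eq hr (hall i)).1 h4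
      have h6 : r ≤ W := Nat.le_of_dvd hW0 hrW
      have h7 : W * 1 ≤ W * f i := Nat.mul_le_mul_left _ (hf1 i).1
      omega
    have hnN : n ∈ N := Finset.mem_filter.2 ⟨Finset.mem_Icc.2 ⟨hn0, hnX⟩, hcop⟩
    have g1 := hfG n hnN
    have g2 := hfE (n % q) (Finset.mem_range.2 (Nat.mod_lt _ hq0))
    have g3 : (univ : Finset (Fin k)).filter (fun i => ¬ f i ∈ E (n % q)) ⊆
        (univ : Finset (Fin k)).filter (fun i => f i ∈ G n) := by
      intro i hi
      rw [Finset.mem_filter] at hi ⊢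
      refine ⟨hi.1, ?_⟩
      refine Finset.mem_filter.2 ⟨hfS i, hall i, ?_⟩
      intro hm
      apply hi.2
      refine Finset.mem_filter.2 ⟨hfS i, ?_⟩
      have : ((n % q + W * f i : ℕ) : ZMod q) = ((n + W * f i : ℕ) : ZMod q) := by
        push_cast
        rw [ZMod.natCast_mod]
      rw [cv, this]
      exact hm
    have g4 := Finset.card_filter_add_card_filter_not (s := (univ : Finset (Fin k)))
      (fun i => f i ∈ E (n % q))
    have g5 := Finset.card_le_card g3
    rw [Finset.card_univ, Fintype.card_fin] at g4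
    have g6 : (k : ℝ) ≤ ((univ.filter (fun i => f i ∈ E (n % q))).card : ℝ) +
        ((univ.filter (fun i => f i ∈ G n)).card : ℝ) := by
      have g7 : (k : ℝ) = ((univ.filter (fun i => f i ∈ E (n % q))).card : ℝ) +
          ((univ.filter (fun i => ¬ f i ∈ E (n % q))).card : ℝ) := by exact_mod_cast g4.symm
      have : (((univ : Finset (Fin k)).filter (fun i => ¬ f i ∈ E (n % q))).card : ℝ) ≤
        ((univ.filter (fun i => f i ∈ G n)).card : ℝ) := by exact_mod_cast g5
      linarith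
    linarith

end Pool.Agent.E8helper22.SZ
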