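import Pool.Agent.E8helper22.SZ.Stm

/-! Project SZ, stronger form: statements of two more pieces. -/

set_option autoImplicit false

namespace Pool.Agent.E8helper22.SZ

open Finset

/-- COMB2: the probabilistic selection, with distinct elements and general thresholds. -/
def S_COMB2 : Prop := ∀ (S J N : Finset ℕ) (k : ℕ) (E G : ℕ → Finset ℕ) (η c₁ c₂ lam : ℝ),
  S.Nonempty → 0 < η → η ≤ 1 → 1 ≤ lam → (∀ j ∈ J, E j ⊆ S ∧ 2 * (E j).card ≤ S.card) →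
  (∀ n ∈ N, G n ⊆ S ∧ ((G n).card : ℝ) ≤ η * S.card) →
  (J.card : ℝ) * (((1 + lam) / 2) ^ k / lam ^ (c₁ * k)) + N.card * (2 ^ k * η ^ (c₂ * k)) +
    (k : ℝ) ^ 2 / S.card < 1 →
  ∃ f : Fin k → ℕ, Function.Injective f ∧ (∀ i, f i ∈ S) ∧
    (∀ j ∈ J, ((univ.filter (fun i => f i ∈ E j)).card : ℝ) < c₁ * k) ∧
    ∀ n ∈ N, ((univ.filter (fun i => f i ∈ G n)).card : ℝ) < c₂ * k

/-- CH: the exponent of the Chernoff bound. -/
def S_CH : Prop := ∀ c : ℝ, 1 / 2 < c → ∃ lam : ℝ, 1 < lam ∧ (1 + lam) / 2 < lam ^ c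

end Pool.Agent.E8helper22.SZ
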