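import Mathlib

/-!
# Uniform prime tuples and exceptional characters (project SZ, MP_f686a1_nt)

If `L(1, χ)` is very small for a primitive real character `χ` modulo `q`, almost all primes `p`, `q^A < p < exp(...)`, have
`χ(p) = -1`. We choose `k ≈ 20 log q` multiples `a` of `W = q' ∏_{p ≤ k} p` at random
(`q = p₁ q'`, `p₁` an odd prime, not dividing `a / W`). Then the set of the `a` is admissible; for
every `n` more than a quarter of the `n + a` have `χ(n + a) ≠ -1`, and for every `n ≤ x` less than a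
quarter of them are primes with `χ ≠ -1`. So no `n ≤ x` makes all of `n + a` prime.

This file has the definitions and the statements of the pieces.
-/

set_option autoImplicit false

namespace Pool.Agent.E8helper22.SZ

open Finset

/-- `χ` is a primitive real character -/
structure RealPrim (q : ℕ) (χ : DirichletCharacter ℂ q) : Prop where
  prim : χ.IsPrimitive
  quad : ∀ a, χ a = 0 ∨ χ a = 1 ∨ χ a = -1

/-- the value of the character, as a real number -/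
noncomputable def cv {q : ℕ} (χ : DirichletCharacter ℂ q) (m : ℕ) : ℝ := (χ (m : ZMod q)).re

/-- `∑_{d ∣ m} χ(d)` -/
noncomputable def tau {q : ℕ} (χ : DirichletCharacter ℂ q) (m : ℕ) : ℝ := ∑ d ∈ m.divisors, cv χ d

/-- BAL: the sum of `χ` over a residue class modulo `q' = q / p` vanishes. -/
def S_BAL : Prop := ∀ (q p q' w : ℕ) (χ : DirichletCharacter ℂ q), 0 < q → RealPrim q χ →
  p.Prime → q = p * q' → ¬ p ∣ w → ∀ n : ℕ,
  ∑ b ∈ range p, cv χ (n + q' * w * b) = 0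

/-- ODD: an odd prime divides `q` exactly once. -/
def S_ODD : Prop := ∀ (q : ℕ) (χ : DirichletCharacter ℂ q), 8 < q → RealPrim q χ →
  ∃ p q' : ℕ, p.Prime ∧ p ≠ 2 ∧ q = p * q' ∧ ¬ p ∣ q'

/-- HALF: at most half of the values are `-1`. -/
def S_HALF : Prop := ∀ (q p q' w : ℕ) (χ : DirichletCharacter ℂ q), 0 < q → RealPrim q χ →
  p.Prime → p ≠ 2 → q = p * q' → ¬ p ∣ q' → ¬ p ∣ w → ∀ n B : ℕ,
  2 * ((Icc 1 (p * B)).filter (fun b => ¬ p ∣ b ∧ cv χ (n + q' * w * b) = -1)).card ≤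
    ((Icc 1 (p * B)).filter (fun b => ¬ p ∣ b)).card

/-- POS -/
def S_POS : Prop := ∀ (q : ℕ) (χ : DirichletCharacter ℂ q), 0 < q → RealPrim q χ →
  ∀ m : ℕ, 0 < m → 0 ≤ tau χ m ∧ (m.Prime → cv χ m ≠ -1 → 1 ≤ tau χ m)

/-- TAU: the sum of `∑_{d ∣ m} χ(d)` over a progression. -/
def S_TAU : Prop := ∀ (q p q' w : ℕ) (χ : DirichletCharacter ℂ q), 0 < q → RealPrim q χ →
  p.Prime → q = p * q' → 0 < w → ¬ p ∣ w → ∀ n B D : ℕ, 0 < n → 0 < D →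
  Nat.Coprime n (q' * w) →
  ∑ b ∈ Icc 1 B, tau χ (n + q' * w * b) ≤
    B * ∑ d ∈ (Icc 1 D).filter (fun d => Nat.Coprime d (q' * w)), cv χ d / d + D +
      p * ((n : ℝ) + q' * w * B) / D

/-- LSUM -/
def S_LSUM : Prop := ∀ (q W D : ℕ) [NeZero q] (χ : DirichletCharacter ℂ q), 1 < q → RealPrim q χ →
  0 < W → 0 < D →
  ∑ d ∈ (Icc 1 D).filter (fun d => Nat.Coprime d W), cv χ d / d ≤
    ‖χ.LFunction 1‖ * (1 + Real.log W) + 2 * q * W / D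

/-- COMB: the probabilistic selection. -/
def S_COMB : Prop := ∀ (S J N : Finset ℕ) (k : ℕ) (E G : ℕ → Finset ℕ) (η : ℝ), S.Nonempty →
  0 < η → η ≤ 1 → (∀ j ∈ J, E j ⊆ S ∧ 2 * (E j).card ≤ S.card) →
  (∀ n ∈ N, G n ⊆ S ∧ ((G n).card : ℝ) ≤ η * S.card) →
  (J.card : ℝ) * (2 ^ k / (3 : ℝ) ^ (3 * (k : ℝ) / 4)) + N.card * (2 ^ k * η ^ ((k : ℝ) / 4)) < 1 →
  ∃ f : Fin k → ℕ, (∀ i, f i ∈ S) ∧
    (∀ j ∈ J, ((univ.filter (fun i => f i ∈ E j)).card : ℝ) < 3 * k / 4) ∧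
    ∀ n ∈ N, ((univ.filter (fun i => f i ∈ G n)).card : ℝ) < k / 4

/-- ZERO: a real zero close to one makes `L(1, χ)` small. -/
def S_ZERO : Prop := ∃ C : ℝ, 0 < C ∧ ∀ (q : ℕ) [NeZero q] (χ : DirichletCharacter ℂ q), 1 < q →
  RealPrim q χ → ∀ β : ℝ, 1 - 1 / Real.log q ≤ β → β < 1 → χ.LFunction β = 0 →
  ‖χ.LFunction 1‖ ≤ C * (1 - β) * Real.log q ^ 2

/-- `A` is admissible: for every prime `p` some residue class modulo `p` contains no element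
of `A`. -/
def Admissible (A : Finset ℕ) : Prop :=
  ∀ p : ℕ, p.Prime → ∃ c : ℕ, ∀ a ∈ A, ¬ a ≡ c [MOD p]

/-- The assertion of the problem for one `δ`. -/
def UniformTuples (δ : ℝ) : Prop := ∃ x₀ : ℝ, ∀ x : ℝ, x₀ ≤ x → ∀ A : Finset ℕ, Admissible A →
  (A.card : ℝ) ≤ Real.log x ^ (1 - δ) → (∀ a ∈ A, (a : ℝ) ≤ x ^ (1 - δ)) →
  ∃ n : ℕ, 0 < n ∧ (n : ℝ) ≤ x ∧ ∀ a ∈ A, (n + a).Prime

/-- MAIN: a very small `L(1, χ)` gives an admissible set without prime translates. -/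
def S_MAIN : Prop := ∀ δ κ : ℝ, 0 < δ → δ < 1 / 2 → δ / (1 - δ) < κ → κ < 1 →
  ∃ q₀ : ℕ, ∀ (q : ℕ) [NeZero q] (χ : DirichletCharacter ℂ q), q₀ ≤ q → RealPrim q χ →
  ‖χ.LFunction 1‖ ≤ Real.exp (-Real.log q ^ κ) →
  ∀ x : ℝ, x = Real.exp ((20 * Real.log q) ^ (1 / (1 - δ))) →
  ∃ A : Finset ℕ, Admissible A ∧ (A.card : ℝ) ≤ Real.log x ^ (1 - δ) ∧
    (∀ a ∈ A, (a : ℝ) ≤ x ^ (1 - δ)) ∧
    ∀ n : ℕ, 0 < n → (n : ℝ) ≤ x → ∃ a ∈ A, ¬ (n + a).Prime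

end Pool.Agent.E8helper22.SZ
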