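import Pool.Agent.E8helper22.SZ.Main
import Pool.Agent.E8helper10.SZ.Bal
import Pool.Agent.E8helper10.SZ.Tau
import Pool.Agent.E8helper89.SZ.Odd
import Pool.Agent.E8helper56.SZ.Half
import Pool.Agent.E8helper63.SZ.Pos
import Pool.Agent.E8helper63.SZ.Zero
import Pool.Agent.E8helper23.SZ.Lsum
import Pool.Agent.E8helper76.SZ.Comb

/-! Project SZ: assembly. -/

set_option autoImplicit false

namespace Pool.Agent.E8helper22.SZ

open Finset Filter

theorem main0 : S_MAIN :=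
  t_MAIN (Pool.Agent.E8helper89.SZ.t_ODD Pool.Agent.E8helper10.SZ.t_BAL)
    (Pool.Agent.E8helper56.SZ.t_HALF Pool.Agent.E8helper10.SZ.t_BAL)
    Pool.Agent.E8helper63.SZ.t_POS (Pool.Agent.E8helper10.SZ.t_TAU Pool.Agent.E8helper10.SZ.t_BAL)
    Pool.Agent.E8helper23.SZ.t_LSUM Pool.Agent.E8helper76.SZ.t_COMB

/-- MAIN without the condition `κ < 1` -/
theorem main1 (δ κ : ℝ) (hδ0 : 0 < δ) (hδ : δ < 1 / 2) (hκ : δ / (1 - δ) < κ) :
    ∃ q₀ : ℕ, ∀ (q : ℕ) [NeZero q] (χ : DirichletCharacter ℂ q), q₀ ≤ q → RealPrim q χ →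
    ‖χ.LFunction 1‖ ≤ Real.exp (-Real.log q ^ κ) →
    ∀ x : ℝ, x = Real.exp ((20 * Real.log q) ^ (1 / (1 - δ))) →
    ∃ A : Finset ℕ, Admissible A ∧ (A.card : ℝ) ≤ Real.log x ^ (1 - δ) ∧
      (∀ a ∈ A, (a : ℝ) ≤ x ^ (1 - δ)) ∧
      ∀ n : ℕ, 0 < n → (n : ℝ) ≤ x → ∃ a ∈ A, ¬ (n + a).Prime := by
  have h1 : δ / (1 - δ) < 1 := by rw [div_lt_one (by linarith)]; linarith
  set c : ℝ := δ / (1 - δ) with hc
  have h2 : c < min κ ((c + 1) / 2) := lt_min hκ (by linarith)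
  have h3 : min κ ((c + 1) / 2) < 1 := (min_le_right _ _).trans_lt (by linarith)
  obtain ⟨q₀, hq₀⟩ := main0 δ (min κ ((c + 1) / 2)) hδ0 hδ h2 h3
  refine ⟨max q₀ 3, fun q _ χ hq hχ hL x hx => ?_⟩
  have hq3 : 3 ≤ q := (le_max_right _ _).trans hq
  refine hq₀ q χ ((le_max_left _ _).trans hq) hχ (hL.trans (Real.exp_le_exp.2 ?_)) x hx
  have hlog : 1 ≤ Real.log q := by
    rw [Real.le_log_iff_exp_le (by positivity)]
    have h4 := Real.exp_one_lt_d9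
    have h5 : (3 : ℝ) ≤ q := by exact_mod_cast hq3
    linarith
  have := Real.rpow_le_rpow_of_exponent_le hlog (min_le_left κ ((c + 1) / 2))
  linarith

theorem x_tendsto (δ : ℝ) (hδ : δ < 1) :
    Tendsto (fun q : ℕ => Real.exp ((20 * Real.log q) ^ (1 / (1 - δ)))) atTop atTop := by
  refine Real.tendsto_exp_atTop.comp ((tendsto_rpow_atTop (by
    have : 0 < 1 - δ := by linarith
    positivity)).comp ?_)
  exact (Real.tendsto_log_atTop.comp tendsto_natCast_atTop_atTop).const_mul_atTop (by norm_num)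

theorem lower1 (δ κ : ℝ) (hδ0 : 0 < δ) (hδ : δ < 1 / 2) (hκ : δ / (1 - δ) < κ)
    (hU : UniformTuples δ) :
    ∃ q₀ : ℕ, ∀ (q : ℕ) [NeZero q] (χ : DirichletCharacter ℂ q), q₀ ≤ q → RealPrim q χ →
      Real.exp (-Real.log q ^ κ) < ‖χ.LFunction 1‖ := by
  obtain ⟨q₁, hq₁⟩ := main1 δ κ hδ0 hδ hκ
  obtain ⟨x₀, hx₀⟩ := hU
  obtain ⟨q₂, hq₂⟩ := eventually_atTop.1 ((x_tendsto δ (by linarith)).eventually_ge_atTop x₀)
  refine ⟨max q₁ q₂, fun q _ χ hq hχ => ?_⟩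
  by_contra hcon
  rw [not_lt] at hcon
  obtain ⟨A, hA, hA2, hA3, hA4⟩ := hq₁ q χ ((le_max_left _ _).trans hq) hχ hcon _ rfl
  obtain ⟨n, hn0, hnx, hn⟩ := hx₀ _ (hq₂ q ((le_max_right _ _).trans hq)) A hA hA2 hA3
  obtain ⟨a, ha, ha2⟩ := hA4 n hn0 hnx
  exact ha2 (hn a ha)

/-- with real zeros -/
theorem lower2 (δ κ : ℝ) (hδ0 : 0 < δ) (hδ : δ < 1 / 2) (hκ : δ / (1 - δ) < κ)
    (hU : UniformTuples δ) :
    ∃ q₀ : ℕ, ∀ (q : ℕ) [NeZero q] (χ : DirichletCharacter ℂ q), q₀ ≤ q → RealPrim q χ →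
      Real.exp (-Real.log q ^ κ) < ‖χ.LFunction 1‖ ∧
      ∀ β : ℝ, 1 - Real.exp (-Real.log q ^ κ) ≤ β → β ≤ 1 → χ.LFunction β ≠ 0 := by
  obtain ⟨κ', h1, h2⟩ := exists_between hκ
  have hκ'0 : 0 < κ' := lt_of_le_of_lt (div_nonneg hδ0.le (by linarith)) h1
  have hκ0 : 0 < κ := hκ'0.trans h2
  obtain ⟨q₁, hq₁⟩ := lower1 δ κ' hδ0 hδ h1 hU
  obtain ⟨q₂, hq₂⟩ := lower1 δ κ hδ0 hδ hκ hU
  obtain ⟨C, hC0, hC⟩ := Pool.Agent.E8helper63.SZ.t_ZERO
  -- the comparison, for large `y = log q`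
  have hy : ∀ᶠ y : ℝ in atTop, C * Real.exp (-y ^ κ) * y ^ 2 ≤ Real.exp (-y ^ κ') ∧
      Real.exp (-y ^ κ) ≤ 1 / y := by
    have g1 := ev_rpow h2 2
    have g2 : Tendsto (fun y : ℝ => y ^ κ) atTop atTop := tendsto_rpow_atTop hκ0
    have g3 := (isLittleO_log_rpow_atTop hκ0).bound (show (0 : ℝ) < 1 / 8 by norm_num)
    filter_upwards [g1, g2.eventually_ge_atTop (4 * Real.log C), g3, eventually_ge_atTop 1]
      with y e1 e2 e3 e4
    have hy0 : 0 < y := by linarith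
    have e5 : Real.log y ≤ 1 / 8 * y ^ κ := by
      rw [Real.norm_of_nonneg (Real.log_nonneg e4),
        Real.norm_of_nonneg (Real.rpow_nonneg hy0.le _)] at e3
      exact e3
    have e6 : 0 ≤ y ^ κ := Real.rpow_nonneg hy0.le _
    constructor
    · have h3 : C * Real.exp (-y ^ κ) * y ^ 2 = Real.exp (Real.log C + -y ^ κ + 2 * Real.log y) := by
        rw [Real.exp_add, Real.exp_add, Real.exp_log hC0, two_mul, Real.exp_add,
          Real.exp_log hy0]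
        ring
      rw [h3]
      apply Real.exp_le_exp.2
      linarith
    · rw [le_div_iff₀ hy0]
      have h3 : Real.exp (-y ^ κ) * y = Real.exp (-y ^ κ + Real.log y) := by
        rw [Real.exp_add, Real.exp_log hy0]
      rw [h3, Real.exp_le_one_iff]
      linarith
  have hlogt : Tendsto (fun q : ℕ => Real.log q) atTop atTop :=
    Real.tendsto_log_atTop.comp tendsto_natCast_atTop_atTop
  obtain ⟨q₃, hq₃⟩ := eventually_atTop.1 ((hlogt.eventually hy).and (eventually_gt_atTop 1))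
  refine ⟨max (max q₁ q₂) q₃, fun q _ χ hq hχ => ?_⟩
  have hqa := (le_max_left _ _).trans hq
  have hb1 := hq₁ q χ ((le_max_left _ _).trans hqa) hχ
  have hb2 := hq₂ q χ ((le_max_right _ _).trans hqa) hχ
  obtain ⟨⟨hy1, hy2⟩, hq1⟩ := hq₃ q ((le_max_right _ _).trans hq)
  refine ⟨hb2, fun β hβ1 hβ2 hz => ?_⟩
  rcases hβ2.lt_or_eq with hβ | hβ
  · have h3 := hC q χ hq1 hχ β (by linarith) hβ hz
    have h4 : C * (1 - β) * Real.log q ^ 2 ≤ C * Real.exp (-Real.log q ^ κ) * Real.log q ^ 2 := by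
      have : 1 - β ≤ Real.exp (-Real.log q ^ κ) := by linarith
      gcongr
    linarith
  · rw [hβ] at hz
    have h3 := Real.exp_pos (-Real.log q ^ κ)
    rw [Complex.ofReal_one] at hz
    rw [hz, norm_zero] at hb2
    linarith

theorem lower3 (hU : ∀ δ : ℝ, 0 < δ → UniformTuples δ) (ε : ℝ) (hε : 0 < ε) :
    ∃ q₀ : ℕ, ∀ (q : ℕ) [NeZero q] (χ : DirichletCharacter ℂ q), q₀ ≤ q → RealPrim q χ →
      Real.exp (-Real.log q ^ ε) < ‖χ.LFunction 1‖ ∧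
      ∀ β : ℝ, 1 - Real.exp (-Real.log q ^ ε) ≤ β → β ≤ 1 → χ.LFunction β ≠ 0 := by
  have hm : 0 < min ε 1 := lt_min hε one_pos
  have hm1 : min ε 1 ≤ 1 := min_le_right _ _
  refine lower2 (min ε 1 / 3) ε (by positivity) (by linarith) ?_ (hU _ (by positivity))
  rw [div_lt_iff₀ (by linarith)]
  have := min_le_left ε 1
  nlinarith

end Pool.Agent.E8helper22.SZ
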