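import Pool.Agent.E8helper22.SZ.Main2
import Pool.Agent.E8helper22.SZ.Final
import Pool.Agent.E8helper56.SZ.Comb2
import Pool.Agent.E8helper99.SZ.Ch

/-! Project SZ, stronger form: assembly. -/

set_option autoImplicit false

namespace Pool.Agent.E8helper22.SZ

open Finset Filter

/-- the assertion of Q1, weakened: at least `θ |A|` of the `n + a` are prime, instead of all -/
def WeakTuples (θ δ : ℝ) : Prop := ∃ x₀ : ℝ, ∀ x : ℝ, x₀ ≤ x → ∀ A : Finset ℕ, Admissible A →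
  (A.card : ℝ) ≤ Real.log x ^ (1 - δ) → (∀ a ∈ A, (a : ℝ) ≤ x ^ (1 - δ)) →
  ∃ n : ℕ, 0 < n ∧ (n : ℝ) ≤ x ∧ θ * A.card ≤ ((A.filter (fun a => (n + a).Prime)).card : ℝ)

theorem weak_of {θ δ : ℝ} (hθ : θ ≤ 1) (h : UniformTuples δ) : WeakTuples θ δ := by
  obtain ⟨x₀, hx₀⟩ := h
  refine ⟨x₀, fun x hx A h1 h2 h3 => ?_⟩
  obtain ⟨n, hn0, hnx, hn⟩ := hx₀ x hx A h1 h2 h3
  refine ⟨n, hn0, hnx, ?_⟩
  rw [Finset.filter_true_of_mem hn]
  have : (0 : ℝ) ≤ A.card := Nat.cast_nonneg _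
  nlinarith

theorem strong1 (δ θ : ℝ) (hδ0 : 0 < δ) (hδ : δ < 1 / 2) (hθ : 1 / 2 < θ) :
    ∃ C : ℝ, 0 < C ∧ ∃ q₀ : ℕ, ∀ (q : ℕ) [NeZero q] (χ : DirichletCharacter ℂ q), q₀ ≤ q →
      RealPrim q χ → ‖χ.LFunction 1‖ ≤ Real.exp (-(C * Real.log q ^ (δ / (1 - δ)))) →
      ∀ x : ℝ, x = Real.exp ((C * Real.log q) ^ (1 / (1 - δ))) →
      ∃ A : Finset ℕ, Admissible A ∧ (A.card : ℝ) ≤ Real.log x ^ (1 - δ) ∧
        (∀ a ∈ A, (a : ℝ) ≤ x ^ (1 - δ)) ∧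
        ∀ n : ℕ, 0 < n → (n : ℝ) ≤ x →
          ((A.filter (fun a => (n + a).Prime)).card : ℝ) < θ * A.card :=
  t_MAIN2 (Pool.Agent.E8helper89.SZ.t_ODD Pool.Agent.E8helper10.SZ.t_BAL)
    (Pool.Agent.E8helper56.SZ.t_HALF Pool.Agent.E8helper10.SZ.t_BAL)
    Pool.Agent.E8helper63.SZ.t_POS (Pool.Agent.E8helper10.SZ.t_TAU Pool.Agent.E8helper10.SZ.t_BAL)
    Pool.Agent.E8helper23.SZ.t_LSUM Pool.Agent.E8helper56.SZ.t_COMB2
    Pool.Agent.E8helper99.SZ.t_CH δ θ hδ0 hδ hθ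

theorem x_tendsto2 (C δ : ℝ) (hC : 0 < C) (hδ : δ < 1) :
    Tendsto (fun q : ℕ => Real.exp ((C * Real.log q) ^ (1 / (1 - δ)))) atTop atTop := by
  refine Real.tendsto_exp_atTop.comp ((tendsto_rpow_atTop (by
    have : 0 < 1 - δ := by linarith
    positivity)).comp ?_)
  exact (Real.tendsto_log_atTop.comp tendsto_natCast_atTop_atTop).const_mul_atTop hC

theorem strong2 (δ θ : ℝ) (hδ0 : 0 < δ) (hδ : δ < 1 / 2) (hθ : 1 / 2 < θ)
    (hU : WeakTuples θ δ) :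
    ∃ C : ℝ, 0 < C ∧ ∃ q₀ : ℕ, ∀ (q : ℕ) [NeZero q] (χ : DirichletCharacter ℂ q), q₀ ≤ q →
      RealPrim q χ → Real.exp (-(C * Real.log q ^ (δ / (1 - δ)))) < ‖χ.LFunction 1‖ ∧
      ∀ β : ℝ, 1 - Real.exp (-(C * Real.log q ^ (δ / (1 - δ)))) ≤ β → β ≤ 1 →
        χ.LFunction β ≠ 0 := by
  obtain ⟨C, hC0, q₁, hq₁⟩ := strong1 δ θ hδ0 hδ hθ
  obtain ⟨x₀, hx₀⟩ := hU
  obtain ⟨q₂, hq₂⟩ := eventually_atTop.1 ((x_tendsto2 C δ hC0 (by linarith)).eventually_ge_atTop x₀)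
  have hlow : ∀ (q : ℕ) [NeZero q] (χ : DirichletCharacter ℂ q), max q₁ q₂ ≤ q → RealPrim q χ →
      Real.exp (-(C * Real.log q ^ (δ / (1 - δ)))) < ‖χ.LFunction 1‖ := by
    intro q _ χ hq hχ
    by_contra hcon
    rw [not_lt] at hcon
    obtain ⟨A, hA, hA2, hA3, hA4⟩ := hq₁ q χ ((le_max_left _ _).trans hq) hχ hcon _ rfl
    obtain ⟨n, hn0, hnx, hn⟩ := hx₀ _ (hq₂ q ((le_max_right _ _).trans hq)) A hA hA2 hA3
    have := hA4 n hn0 hnx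
    linarith
  obtain ⟨K, hK0, hK⟩ := Pool.Agent.E8helper63.SZ.t_ZERO
  obtain ⟨κ, hκ⟩ : ∃ κ, κ = δ / (1 - δ) := ⟨_, rfl⟩
  have hκ0 : 0 < κ := by rw [hκ]; exact div_pos hδ0 (by linarith)
  rw [← hκ] at hlow ⊢
  have hy : ∀ᶠ y : ℝ in atTop, K * Real.exp (-((C + 1) * y ^ κ)) * y ^ 2 ≤
      Real.exp (-(C * y ^ κ)) ∧ Real.exp (-((C + 1) * y ^ κ)) ≤ 1 / y := by
    have g2 : Tendsto (fun y : ℝ => y ^ κ) atTop atTop := tendsto_rpow_atTop hκ0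
    have g3 := (isLittleO_log_rpow_atTop hκ0).bound (show (0 : ℝ) < 1 / 8 by norm_num)
    filter_upwards [g2.eventually_ge_atTop (4 * Real.log K), g3, eventually_ge_atTop 1]
      with y e2 e3 e4
    have hy0 : 0 < y := by linarith
    have e5 : Real.log y ≤ 1 / 8 * y ^ κ := by
      rw [Real.norm_of_nonneg (Real.log_nonneg e4),
        Real.norm_of_nonneg (Real.rpow_nonneg hy0.le _)] at e3
      exact e3
    have e6 : 0 ≤ y ^ κ := Real.rpow_nonneg hy0.le _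
    constructor
    · have h3 : K * Real.exp (-((C + 1) * y ^ κ)) * y ^ 2 =
          Real.exp (Real.log K + -((C + 1) * y ^ κ) + 2 * Real.log y) := by
        rw [Real.exp_add, Real.exp_add, Real.exp_log hK0, two_mul, Real.exp_add,
          Real.exp_log hy0]
        ring
      rw [h3]
      apply Real.exp_le_exp.2
      linarith
    · rw [le_div_iff₀ hy0]
      have h3 : Real.exp (-((C + 1) * y ^ κ)) * y = Real.exp (-((C + 1) * y ^ κ) + Real.log y) := by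
        rw [Real.exp_add, Real.exp_log hy0]
      rw [h3, Real.exp_le_one_iff]
      have : 0 ≤ C * y ^ κ := by positivity
      linarith
  have hlogt : Tendsto (fun q : ℕ => Real.log q) atTop atTop :=
    Real.tendsto_log_atTop.comp tendsto_natCast_atTop_atTop
  obtain ⟨q₃, hq₃⟩ := eventually_atTop.1 ((hlogt.eventually hy).and (eventually_gt_atTop 1))
  refine ⟨C + 1, by linarith, max (max q₁ q₂) q₃, fun q _ χ hq hχ => ?_⟩
  have hb := hlow q χ ((le_max_left _ _).trans hq) hχ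
  obtain ⟨⟨hy1, hy2⟩, hq1⟩ := hq₃ q ((le_max_right _ _).trans hq)
  have hq1R : (1 : ℝ) < q := by exact_mod_cast hq1
  have hlogq : 0 ≤ Real.log q := Real.log_nonneg hq1R.le
  have hle : Real.exp (-((C + 1) * Real.log q ^ κ)) ≤ Real.exp (-(C * Real.log q ^ κ)) := by
    apply Real.exp_le_exp.2
    have : 0 ≤ Real.log q ^ κ := Real.rpow_nonneg hlogq _
    linarith
  refine ⟨hle.trans_lt hb, fun β hβ1 hβ2 hz => ?_⟩
  rcases hβ2.lt_or_eq with hβ | hβ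
  · have h3 := hK q χ hq1 hχ β (by linarith) hβ hz
    have h4 : K * (1 - β) * Real.log q ^ 2 ≤
        K * Real.exp (-((C + 1) * Real.log q ^ κ)) * Real.log q ^ 2 := by
      have : 1 - β ≤ Real.exp (-((C + 1) * Real.log q ^ κ)) := by linarith
      gcongr
    linarith
  · rw [hβ] at hz
    have h3 := Real.exp_pos (-(C * Real.log q ^ κ))
    rw [Complex.ofReal_one] at hz
    rw [hz, norm_zero] at hb
    linarith

theorem strong3 (θ : ℝ) (hθ : 1 / 2 < θ) (hU : ∀ δ : ℝ, 0 < δ → WeakTuples θ δ) (ε : ℝ)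
    (hε : 0 < ε) :
    ∃ q₀ : ℕ, ∀ (q : ℕ) [NeZero q] (χ : DirichletCharacter ℂ q), q₀ ≤ q → RealPrim q χ →
      Real.exp (-Real.log q ^ ε) < ‖χ.LFunction 1‖ ∧
      ∀ β : ℝ, 1 - Real.exp (-Real.log q ^ ε) ≤ β → β ≤ 1 → χ.LFunction β ≠ 0 := by
  have hm : 0 < min ε 1 := lt_min hε one_pos
  have hm1 : min ε 1 ≤ 1 := min_le_right _ _
  obtain ⟨δ, hδ⟩ : ∃ δ, δ = min ε 1 / 3 := ⟨_, rfl⟩
  have hδ0 : 0 < δ := by rw [hδ]; positivity
  have hδ1 : δ < 1 / 2 := by rw [hδ]; linarith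
  have hκ : δ / (1 - δ) < ε := by
    rw [div_lt_iff₀ (by linarith)]
    have := min_le_left ε 1
    rw [hδ]
    nlinarith
  obtain ⟨C, hC0, q₁, hq₁⟩ := strong2 δ θ hδ0 hδ1 hθ (hU δ hδ0)
  have hlogt : Tendsto (fun q : ℕ => Real.log q) atTop atTop :=
    Real.tendsto_log_atTop.comp tendsto_natCast_atTop_atTop
  obtain ⟨q₂, hq₂⟩ := eventually_atTop.1 (hlogt.eventually (ev_rpow hκ C))
  refine ⟨max q₁ q₂, fun q _ χ hq hχ => ?_⟩
  obtain ⟨h1, h2⟩ := hq₁ q χ ((le_max_left _ _).trans hq) hχ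
  have h3 := hq₂ q ((le_max_right _ _).trans hq)
  have h4 : Real.exp (-Real.log q ^ ε) ≤ Real.exp (-(C * Real.log q ^ (δ / (1 - δ)))) :=
    Real.exp_le_exp.2 (neg_le_neg h3)
  exact ⟨h4.trans_lt h1, fun β hβ1 hβ2 => h2 β (by linarith) hβ2⟩

end Pool.Agent.E8helper22.SZ
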