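import Pool.Agent.E8helper22.SZ.Param

/-! Project SZ: the main theorem. -/

set_option autoImplicit false

namespace Pool.Agent.E8helper22.SZ

open Finset Filter

/-- the numerical condition on the sifted sum -/
theorem cond2 (t Λ s δ L : ℝ) (p B W D X q : ℕ) (hp3 : 3 ≤ p) (_hL0 : 0 ≤ L)
    (hΛ : 100 ≤ Λ) (_hs : 0 ≤ s) (hδ0 : 0 < δ)
    (f3 : 4 * Λ + s + 100 ≤ (1 / 2 - δ) * t) (f4 : 1 + 2 * Λ ≤ Real.exp s)
    (f5 : L ≤ Real.exp (-(2 + 2 * s)))
    (ht : 100 ≤ t)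
    (hW1 : 1 ≤ W) (hlogW : Real.log W ≤ 2 * Λ) (hqW : (q : ℝ) * W ≤ Real.exp (2 * Λ))
    (hp : (p : ℝ) ≤ Real.exp Λ)
    (hD1 : (D : ℝ) ≤ Real.exp (t / 2)) (hD2 : Real.exp (t / 2) / 2 ≤ D)
    (hX : (X : ℝ) ≤ Real.exp t)
    (hB1 : (W : ℝ) * (p * B : ℕ) ≤ Real.exp ((1 - δ) * t))
    (hB2 : Real.exp ((1 - δ) * t - 2 * Λ) / 2 ≤ (p * B : ℕ)) :
    ((p * B : ℕ) : ℝ) * (L * (1 + Real.log W) + 2 * q * W / D) + D +
      p * ((X : ℝ) + W * (p * B : ℕ)) / D ≤ Real.exp (-s) * ((p - 1) * B : ℕ) := by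
  have hlogW0 : 0 ≤ Real.log W := Real.log_nonneg (by exact_mod_cast hW1)
  set P : ℝ := ((p * B : ℕ) : ℝ) with hP
  have hP0 : 0 ≤ P := by rw [hP]; positivity
  set η : ℝ := Real.exp (-s) with hη
  have hη0 : 0 < η := Real.exp_pos _
  have hDpos : (0 : ℝ) < D := lt_of_lt_of_le (by positivity) hD2
  have e7 : Real.exp (-2) ≤ 1 / 7 := by
    rw [Real.exp_neg, ← one_div]
    apply one_div_le_one_div_of_le (by norm_num)
    have h1 : Real.exp 2 = Real.exp 1 * Real.exp 1 := by rw [← Real.exp_add]; norm_num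
    have h2 := Real.exp_one_gt_d9
    rw [h1]; nlinarith
  have e100 : Real.exp (-100) ≤ 1 / 101 := by
    rw [Real.exp_neg, ← one_div]
    apply one_div_le_one_div_of_le (by norm_num)
    have := Real.add_one_le_exp (100 : ℝ)
    linarith
  -- the main term
  have T1 : P * (L * (1 + Real.log W)) ≤ η * P / 7 := by
    have h1 : L * (1 + Real.log W) ≤ η / 7 := by
      calc L * (1 + Real.log W) ≤ Real.exp (-(2 + 2 * s)) * (1 + 2 * Λ) := by gcongr
        _ ≤ Real.exp (-(2 + 2 * s)) * Real.exp s := by gcongr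
        _ = Real.exp (-2) * η := by
            rw [hη, ← Real.exp_add, ← Real.exp_add]; congr 1; ring
        _ ≤ 1 / 7 * η := by gcongr
        _ = η / 7 := by ring
    calc P * (L * (1 + Real.log W)) ≤ P * (η / 7) := by gcongr
      _ = η * P / 7 := by ring
  have hDinv : 1 / (D : ℝ) ≤ 2 * Real.exp (-(t / 2)) := by
    rw [div_le_iff₀ hDpos]
    have h1 : Real.exp (-(t / 2)) * Real.exp (t / 2) = 1 := by
      rw [← Real.exp_add]; simp
    have h2 := Real.exp_pos (-(t / 2))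
    nlinarith
  have T2 : P * (2 * q * W / D) ≤ η * P * (4 / 101) := by
    have h1 : 2 * (q : ℝ) * W / D ≤ η * (4 / 101) := by
      calc 2 * (q : ℝ) * W / D = 2 * ((q : ℝ) * W) * (1 / D) := by ring
        _ ≤ 2 * Real.exp (2 * Λ) * (2 * Real.exp (-(t / 2))) := by gcongr
        _ = 4 * Real.exp (2 * Λ - t / 2) := by rw [sub_eq_add_neg, Real.exp_add]; ring
        _ ≤ 4 * Real.exp (-s + -100) := by
            gcongr
            nlinarith
        _ = η * (4 * Real.exp (-100)) := by rw [Real.exp_add]; ring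
        _ ≤ η * (4 * (1 / 101)) := by gcongr
        _ = η * (4 / 101) := by ring
    calc P * (2 * q * W / D) ≤ P * (η * (4 / 101)) := by gcongr
      _ = η * P * (4 / 101) := by ring
  have hηP : Real.exp ((1 - δ) * t - 2 * Λ - s) / 2 ≤ η * P := by
    calc Real.exp ((1 - δ) * t - 2 * Λ - s) / 2
        = η * (Real.exp ((1 - δ) * t - 2 * Λ) / 2) := by
          rw [hη, sub_eq_add_neg ((1 - δ) * t - 2 * Λ), Real.exp_add]; ring
      _ ≤ η * P := by gcongr
  have T3 : (D : ℝ) ≤ η * P * (2 / 101) := by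
    calc (D : ℝ) ≤ Real.exp (t / 2) := hD1
      _ ≤ Real.exp ((1 - δ) * t - 2 * Λ - s + -100) := by
          apply Real.exp_le_exp.2; nlinarith
      _ = Real.exp ((1 - δ) * t - 2 * Λ - s) * Real.exp (-100) := by rw [Real.exp_add]
      _ ≤ Real.exp ((1 - δ) * t - 2 * Λ - s) * (1 / 101) := by gcongr
      _ = Real.exp ((1 - δ) * t - 2 * Λ - s) / 2 * (2 / 101) := by ring
      _ ≤ η * P * (2 / 101) := by gcongr
  have hexpt : Real.exp ((1 - δ) * t) ≤ Real.exp t := by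
    apply Real.exp_le_exp.2; nlinarith
  have T4 : (p : ℝ) * ((X : ℝ) + W * P) / D ≤ η * P * (8 / 101) := by
    calc (p : ℝ) * ((X : ℝ) + W * P) / D = p * ((X : ℝ) + W * P) * (1 / D) := by ring
      _ ≤ Real.exp Λ * (Real.exp t + Real.exp t) * (2 * Real.exp (-(t / 2))) := by
          have : (X : ℝ) + W * P ≤ Real.exp t + Real.exp t := add_le_add hX (hB1.trans hexpt)
          gcongr
      _ = 4 * Real.exp (Λ + t / 2) := by
          have h1 : Real.exp (Λ + t / 2) = Real.exp Λ * (Real.exp t * Real.exp (-(t / 2))) := by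
            rw [← Real.exp_add, ← Real.exp_add]; congr 1; ring
          rw [h1]; ring
      _ ≤ 4 * Real.exp ((1 - δ) * t - 2 * Λ - s + -100) := by
          refine mul_le_mul_of_nonneg_left (Real.exp_le_exp.2 ?_) (by norm_num)
          linarith
      _ = 4 * (Real.exp ((1 - δ) * t - 2 * Λ - s) * Real.exp (-100)) := by rw [Real.exp_add]
      _ ≤ 4 * (Real.exp ((1 - δ) * t - 2 * Λ - s) * (1 / 101)) := by gcongr
      _ = Real.exp ((1 - δ) * t - 2 * Λ - s) / 2 * (8 / 101) := by ring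
      _ ≤ η * P * (8 / 101) := by gcongr
  have hS : 2 / 3 * P ≤ (((p - 1) * B : ℕ) : ℝ) := by
    have h1 : 2 * (p * B) ≤ 3 * ((p - 1) * B) := by
      have : 2 * p ≤ 3 * (p - 1) := by omega
      nlinarith [Nat.mul_le_mul_right B this]
    have h2 : (2 : ℝ) * P ≤ 3 * (((p - 1) * B : ℕ) : ℝ) := by rw [hP]; exact_mod_cast h1
    linarith
  have hηS : η * (2 / 3 * P) ≤ η * (((p - 1) * B : ℕ) : ℝ) := by gcongr
  have hηP0 : 0 ≤ η * P := by positivity
  have hfin : P * (L * (1 + Real.log W) + 2 * q * W / D) + D + p * ((X : ℝ) + W * P) / D ≤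
      η * P / 7 + η * P * (4 / 101) + η * P * (2 / 101) + η * P * (8 / 101) := by
    rw [mul_add]
    linarith
  linarith

/-- the numerical condition on the probabilities -/
theorem cond3 (t Λ s : ℝ) (q k X : ℕ) (hΛ : 100 ≤ Λ) (hs : 0 ≤ s) (ht : 100 ≤ t)
    (f6 : 2 * t + Λ + 2 ≤ Λ * s / 8) (hq : (q : ℝ) ≤ Real.exp (Λ / 20))
    (hk1 : (k : ℝ) ≤ Λ) (hk2 : Λ - 1 ≤ k) (hX : (X : ℝ) ≤ Real.exp t) :
    (q : ℝ) * (2 ^ k / (3 : ℝ) ^ (3 * (k : ℝ) / 4)) +
      X * (2 ^ k * Real.exp (-s) ^ ((k : ℝ) / 4)) < 1 := by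
  have T1 : (q : ℝ) * (2 ^ k / (3 : ℝ) ^ (3 * (k : ℝ) / 4)) ≤ 1 / 3 := by
    calc (q : ℝ) * (2 ^ k / (3 : ℝ) ^ (3 * (k : ℝ) / 4))
        ≤ Real.exp (Λ / 20) * Real.exp (-(k : ℝ) / 8) := by
          gcongr
          exact two_three k
      _ = Real.exp (Λ / 20 + -(k : ℝ) / 8) := by rw [Real.exp_add]
      _ ≤ Real.exp (-2) := by apply Real.exp_le_exp.2; linarith
      _ = 1 / Real.exp 2 := by rw [Real.exp_neg, one_div]
      _ ≤ 1 / 3 := by
          apply one_div_le_one_div_of_le (by norm_num)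
          have := Real.add_one_le_exp (2 : ℝ)
          linarith
  have T2 : (X : ℝ) * (2 ^ k * Real.exp (-s) ^ ((k : ℝ) / 4)) ≤ 1 / 3 := by
    have h1 : Real.exp (-s) ^ ((k : ℝ) / 4) ≤ Real.exp (-(Λ * s / 8)) := by
      rw [← Real.exp_mul]
      apply Real.exp_le_exp.2
      have : Λ / 8 ≤ (k : ℝ) / 4 := by linarith
      nlinarith
    have h2 : (2 : ℝ) ^ k ≤ Real.exp Λ := by
      calc (2 : ℝ) ^ k ≤ Real.exp 1 ^ k := by
            have := Real.exp_one_gt_d9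
            gcongr
            linarith
        _ = Real.exp k := by rw [← Real.exp_nat_mul]; simp
        _ ≤ Real.exp Λ := Real.exp_le_exp.2 hk1
    calc (X : ℝ) * (2 ^ k * Real.exp (-s) ^ ((k : ℝ) / 4))
        ≤ Real.exp t * (Real.exp Λ * Real.exp (-(Λ * s / 8))) := by gcongr
      _ = Real.exp (t + (Λ + -(Λ * s / 8))) := by rw [Real.exp_add, Real.exp_add]
      _ ≤ Real.exp (-2) := by apply Real.exp_le_exp.2; linarith
      _ = 1 / Real.exp 2 := by rw [Real.exp_neg, one_div]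
      _ ≤ 1 / 3 := by
          apply one_div_le_one_div_of_le (by norm_num)
          have := Real.add_one_le_exp (2 : ℝ)
          linarith
  linarith

theorem t_MAIN (hODD : S_ODD) (hHALF : S_HALF) (hPOS : S_POS) (hTAU : S_TAU) (hLSUM : S_LSUM)
    (hCOMB : S_COMB) : S_MAIN := by
  classical
  intro δ κ hδ0 hδ hκ1 hκ2
  have h1δ : 0 < 1 - δ := by linarith
  have hκδ : δ < κ * (1 - δ) := by rwa [div_lt_iff₀ h1δ] at hκ1
  have hκ0 : 0 < κ := lt_of_lt_of_le (by positivity) hκ1.le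
  set σ : ℝ := (δ + κ * (1 - δ)) / 2 with hσ
  have hσ1 : δ < σ := by rw [hσ]; linarith
  have hσ2 : σ < κ * (1 - δ) := by rw [hσ]; linarith
  have hσ3 : σ < 1 := by nlinarith
  have hpar := param δ σ κ hδ0 hδ hσ1 hσ2 hσ3 hκ0
  have htend : Tendsto (fun q : ℕ => (20 * Real.log q) ^ (1 / (1 - δ))) atTop atTop := by
    refine (tendsto_rpow_atTop (by positivity)).comp ?_
    exact (Real.tendsto_log_atTop.comp tendsto_natCast_atTop_atTop).const_mul_atTop (by norm_num)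
  have hev := (htend.eventually hpar).and (eventually_gt_atTop 8)
  obtain ⟨q₀, hq₀⟩ := eventually_atTop.1 hev
  refine ⟨q₀, ?_⟩
  intro q _ χ hq hχ hL x hx
  obtain ⟨⟨f1, f2, f3, f4, f5, f6⟩, hq8⟩ := hq₀ q hq
  obtain ⟨p, q', hp, hp2, hqp, hpq⟩ := hODD q χ hq8 hχ
  set t : ℝ := (20 * Real.log q) ^ (1 / (1 - δ)) with ht
  have ht0 : 0 < t := by linarith
  have hqR : (8 : ℝ) < q := by exact_mod_cast hq8
  have hlogq : 0 < Real.log q := Real.log_pos (by linarith)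
  have hΛeq : t ^ (1 - δ) = 20 * Real.log q := by
    rw [ht, ← Real.rpow_mul (by positivity), one_div_mul_cancel h1δ.ne', Real.rpow_one]
  set Λ : ℝ := t ^ (1 - δ) with hΛ
  set s : ℝ := t ^ σ with hs
  have hs0 : 0 ≤ s := by positivity
  have hlogq2 : Real.log q = Λ / 20 := by rw [hΛeq]; ring
  have hqexp : (q : ℝ) = Real.exp (Λ / 20) := by
    rw [← hlogq2, Real.exp_log (by linarith)]
  rw [hlogq2] at hL
  have hp3 : 3 ≤ p := by
    have := hp.two_le
    omega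
  have hq'0 : 0 < q' := by
    rcases Nat.eq_zero_or_pos q' with h | h
    · subst h; simp at hqp; omega
    · exact h
  -- the parameters
  obtain ⟨k, hk⟩ : ∃ k, k = ⌊Λ⌋₊ := ⟨_, rfl⟩
  have hΛ0 : 0 ≤ Λ := by linarith
  have hk1 : (k : ℝ) ≤ Λ := by rw [hk]; exact Nat.floor_le hΛ0
  have hk2 : Λ - 1 ≤ k := by rw [hk]; exact (Nat.sub_one_lt_floor Λ).le
  have hk3 : 1 ≤ k := by
    have : (1 : ℝ) ≤ k := by linarith
    exact_mod_cast this
  obtain ⟨w, hw⟩ : ∃ w, w = ∏ r ∈ (Nat.primesBelow (k + 1)).erase p, r := ⟨_, rfl⟩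
  have hprime : ∀ r ∈ (Nat.primesBelow (k + 1)).erase p, r.Prime := fun r hr =>
    Nat.prime_of_mem_primesBelow (Finset.mem_of_mem_erase hr)
  have hw0 : 0 < w := by
    rw [hw]
    exact Finset.prod_pos fun r hr => (hprime r hr).pos
  have hw4 : w ≤ 4 ^ k := by
    refine le_trans ?_ (primorial_le_four_pow k)
    rw [hw, primorial]
    refine Finset.prod_le_prod_of_subset_of_one_le' ?_ ?_
    · intro r hr
      have h1 := Finset.mem_of_mem_erase hr
      rw [Nat.mem_primesBelow] at h1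
      rw [Finset.mem_filter, Finset.mem_range]
      exact ⟨h1.1, h1.2⟩
    · intro r hr _
      exact (Finset.mem_filter.1 hr).2.one_lt.le
  obtain ⟨W, hW⟩ : ∃ W, W = q' * w := ⟨_, rfl⟩
  have hW0 : 0 < W := by rw [hW]; positivity
  have hWp : W * p = q * w := by rw [hW, hqp]; ring
  have hlog4 : Real.log 4 ≤ 1.4 := by
    have h1 : Real.log 4 = 2 * Real.log 2 := by
      rw [show (4 : ℝ) = 2 ^ 2 by norm_num, Real.log_pow]; norm_num
    have := Real.log_two_lt_d9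
    rw [h1]; linarith
  have hwexp : (w : ℝ) ≤ Real.exp (1.4 * Λ) := by
    calc (w : ℝ) ≤ 4 ^ k := by exact_mod_cast hw4
      _ = Real.exp (Real.log 4 * k) := by
          rw [Real.exp_mul, Real.exp_log (by norm_num), Real.rpow_natCast]
      _ ≤ Real.exp (1.4 * Λ) := by
          apply Real.exp_le_exp.2
          have : (0 : ℝ) ≤ k := Nat.cast_nonneg _
          nlinarith
  have hWpexp : (W : ℝ) * p ≤ Real.exp (2 * Λ) := by
    have h1 : (W : ℝ) * p = q * w := by exact_mod_cast hWp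
    rw [h1, hqexp]
    calc Real.exp (Λ / 20) * w ≤ Real.exp (Λ / 20) * Real.exp (1.4 * Λ) := by gcongr
      _ = Real.exp (Λ / 20 + 1.4 * Λ) := by rw [Real.exp_add]
      _ ≤ Real.exp (2 * Λ) := by apply Real.exp_le_exp.2; linarith
  have hWq : (W : ℝ) ≤ q * w := by
    have h1 : W ≤ q * w := by
      rw [← hWp]
      exact Nat.le_mul_of_pos_right _ hp.pos
    exact_mod_cast h1
  have hWexp : (W : ℝ) ≤ Real.exp (1.5 * Λ) := by
    refine hWq.trans ?_
    rw [hqexp]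
    calc Real.exp (Λ / 20) * w ≤ Real.exp (Λ / 20) * Real.exp (1.4 * Λ) := by gcongr
      _ = Real.exp (Λ / 20 + 1.4 * Λ) := by rw [Real.exp_add]
      _ ≤ Real.exp (1.5 * Λ) := by apply Real.exp_le_exp.2; linarith
  have hqW : (q : ℝ) * W ≤ Real.exp (2 * Λ) := by
    rw [hqexp]
    calc Real.exp (Λ / 20) * W ≤ Real.exp (Λ / 20) * Real.exp (1.5 * Λ) := by gcongr
      _ = Real.exp (Λ / 20 + 1.5 * Λ) := by rw [Real.exp_add]
      _ ≤ Real.exp (2 * Λ) := by apply Real.exp_le_exp.2; linarith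
  have hlogW : Real.log W ≤ 2 * Λ := by
    have hWR : (0 : ℝ) < W := by exact_mod_cast hW0
    rw [Real.log_le_iff_le_exp hWR]
    exact hWexp.trans (Real.exp_le_exp.2 (by linarith))
  have hpexp : (p : ℝ) ≤ Real.exp Λ := by
    have h1 : p ≤ q := by
      rw [hqp]; exact Nat.le_mul_of_pos_right _ hq'0
    calc (p : ℝ) ≤ q := by exact_mod_cast h1
      _ = Real.exp (Λ / 20) := hqexp
      _ ≤ Real.exp Λ := Real.exp_le_exp.2 (by linarith)
  obtain ⟨X, hX⟩ : ∃ X, X = ⌊Real.exp t⌋₊ := ⟨_, rfl⟩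
  have hX1 : (X : ℝ) ≤ Real.exp t := by rw [hX]; exact Nat.floor_le (Real.exp_pos _).le
  obtain ⟨D, hD⟩ : ∃ D, D = ⌊Real.exp (t / 2)⌋₊ := ⟨_, rfl⟩
  have hD1 : (D : ℝ) ≤ Real.exp (t / 2) := by rw [hD]; exact Nat.floor_le (Real.exp_pos _).le
  have hexp2 : 2 ≤ Real.exp (t / 2) := by
    have := Real.add_one_le_exp (t / 2)
    linarith
  have hD2 : Real.exp (t / 2) / 2 ≤ D := by
    have := Nat.sub_one_lt_floor (Real.exp (t / 2))
    rw [← hD] at this
    linarith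
  have hD0 : 0 < D := by
    have : (0 : ℝ) < D := by linarith
    exact_mod_cast this
  have hWpR : (0 : ℝ) < (W : ℝ) * p := by
    have : 0 < W * p := Nat.mul_pos hW0 hp.pos
    exact_mod_cast this
  obtain ⟨B, hB⟩ : ∃ B, B = ⌊Real.exp ((1 - δ) * t) / (W * p)⌋₊ := ⟨_, rfl⟩
  have hBR : (B : ℝ) ≤ Real.exp ((1 - δ) * t) / (W * p) := by
    rw [hB]; exact Nat.floor_le (by positivity)
  have hge2 : Real.exp ((1 - δ) * t - 2 * Λ) ≤ Real.exp ((1 - δ) * t) / (W * p) := by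
    rw [le_div_iff₀ hWpR]
    calc Real.exp ((1 - δ) * t - 2 * Λ) * (W * p)
        ≤ Real.exp ((1 - δ) * t - 2 * Λ) * Real.exp (2 * Λ) := by gcongr
      _ = Real.exp ((1 - δ) * t) := by rw [← Real.exp_add]; congr 1; ring
  have h2le : 2 ≤ Real.exp ((1 - δ) * t - 2 * Λ) := by
    have := Real.add_one_le_exp ((1 - δ) * t - 2 * Λ)
    nlinarith
  have hB2 : Real.exp ((1 - δ) * t) / (W * p) / 2 ≤ B := by
    have := Nat.sub_one_lt_floor (Real.exp ((1 - δ) * t) / (W * p))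
    rw [← hB] at this
    linarith
  have hB0 : 1 ≤ B := by
    have : (0 : ℝ) < B := by linarith
    have : 0 < B := by exact_mod_cast this
    omega
  have hWP : (W : ℝ) * (p * B : ℕ) ≤ Real.exp ((1 - δ) * t) := by
    rw [le_div_iff₀ hWpR] at hBR
    push_cast
    linarith
  have hP2 : Real.exp ((1 - δ) * t - 2 * Λ) / 2 ≤ (p * B : ℕ) := by
    have h1 : (1 : ℝ) ≤ p := by exact_mod_cast hp.one_lt.le
    have h2 : (B : ℝ) ≤ (p * B : ℕ) := by
      push_cast
      have : (0 : ℝ) ≤ B := Nat.cast_nonneg _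
      nlinarith
    linarith
  have hLb : ‖χ.LFunction 1‖ ≤ Real.exp (-(2 + 2 * s)) :=
    hL.trans (Real.exp_le_exp.2 (by linarith))
  have c2 := cond2 t Λ s δ ‖χ.LFunction 1‖ p B W D X q hp3 (norm_nonneg _) f2 hs0 hδ0 f3 f4 hLb f1
    hW0 hlogW hqW hpexp hD1 hD2 hX1 hWP hP2
  have c3 := cond3 t Λ s q k X f2 hs0 f1 f6 hqexp.le hk1 hk2 hX1
  have hη1 : Real.exp (-s) ≤ 1 := by
    rw [Real.exp_le_one_iff]; linarith
  obtain ⟨A, hA1, hA2, hA3, hA4⟩ := core hHALF hPOS hTAU hLSUM hCOMB q χ hq8 hχ p q' hp hp2 hqp hpq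
    k hk3 W (by rw [hW, hw]) B X D hB0 hD0 (Real.exp (-s)) (Real.exp_pos _) hη1 c2 c3
  have hlogx : Real.log x = t := by rw [hx, Real.log_exp]
  have hxpow : x ^ (1 - δ) = Real.exp ((1 - δ) * t) := by
    rw [hx, ← Real.exp_mul]; congr 1; ring
  refine ⟨A, hA1, ?_, ?_, ?_⟩
  · rw [hlogx]
    have : (A.card : ℝ) ≤ k := by exact_mod_cast hA2
    exact this.trans hk1
  · intro a ha
    rw [hxpow]
    have h1 : (a : ℝ) ≤ ((W * (p * B) : ℕ) : ℝ) := by exact_mod_cast hA3 a ha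
    rw [Nat.cast_mul] at h1
    exact h1.trans hWP
  · intro n hn0 hnx
    refine hA4 n hn0 ?_
    rw [hX]
    exact Nat.le_floor (by rw [← hx]; exact hnx)

end Pool.Agent.E8helper22.SZ
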