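import Pool.Agent.E8helper22.SZ.Main
import Pool.Agent.E8helper22.SZ.Core2

/-! Project SZ, stronger form: the main theorem. -/

set_option autoImplicit false

namespace Pool.Agent.E8helper22.SZ

open Finset Filter

theorem param2 (δ C₂ M : ℝ) (hδ0 : 0 < δ) (hδ : δ < 1 / 2) (hC₂ : 0 < C₂) : ∀ᶠ t : ℝ in atTop,
    100 ≤ t ∧ 100 ≤ t ^ (1 - δ) ∧ M ≤ t ^ (1 - δ) ∧
    4 * t ^ (1 - δ) + C₂ * t ^ δ + 100 ≤ (1 / 2 - δ) * t ∧
    1 + 2 * t ^ (1 - δ) ≤ Real.exp (C₂ * t ^ δ) ∧ 1 ≤ t ^ δ ∧ t ^ (1 - δ) ≤ t := by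
  have h1 : Tendsto (fun t : ℝ => t ^ (1 - δ)) atTop atTop := tendsto_rpow_atTop (by linarith)
  have h2 : Tendsto (fun t : ℝ => t ^ δ) atTop atTop := tendsto_rpow_atTop hδ0
  have hc : 0 < 1 / 2 - δ := by linarith
  have g1 := ev_rpow (show 1 - δ < 1 by linarith) (12 / (1 / 2 - δ))
  have g2 := ev_rpow (show δ < 1 by linarith) (3 * C₂ / (1 / 2 - δ))
  have g5 : ∀ᶠ t : ℝ in atTop, 1 + 2 * t ≤ Real.exp (C₂ * t ^ δ) := by
    have h3 := (isLittleO_log_rpow_atTop hδ0).bound (show (0 : ℝ) < C₂ / 2 by positivity)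
    filter_upwards [h3, eventually_ge_atTop 1, h2.eventually_ge_atTop (2 * Real.log 3 / C₂)]
      with t ht ht1 ht2
    have h4 : Real.log t ≤ C₂ / 2 * t ^ δ := by
      rw [Real.norm_of_nonneg (Real.log_nonneg ht1),
        Real.norm_of_nonneg (Real.rpow_nonneg (by linarith) _)] at ht
      exact ht
    have h5 : Real.log (3 * t) ≤ C₂ * t ^ δ := by
      rw [Real.log_mul (by norm_num) (by linarith)]
      rw [div_le_iff₀ hC₂] at ht2
      linarith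
    calc 1 + 2 * t ≤ 3 * t := by linarith
      _ = Real.exp (Real.log (3 * t)) := (Real.exp_log (by linarith)).symm
      _ ≤ Real.exp (C₂ * t ^ δ) := Real.exp_le_exp.2 h5
  filter_upwards [eventually_ge_atTop 100, h1.eventually_ge_atTop 100, h1.eventually_ge_atTop M,
    g1, g2, g5, eventually_ge_atTop (300 / (1 / 2 - δ)), h2.eventually_ge_atTop 1]
    with t t1 t2 t2' t3 t4 t7 t8 t9
  rw [Real.rpow_one] at t3 t4
  have hle : t ^ (1 - δ) ≤ t := by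
    conv_rhs => rw [← Real.rpow_one t]
    exact Real.rpow_le_rpow_of_exponent_le (by linarith) (by linarith)
  refine ⟨t1, t2, t2', ?_, ?_, t9, hle⟩
  · have e1 : 12 * t ^ (1 - δ) ≤ (1 / 2 - δ) * t := by
      have : 12 / (1 / 2 - δ) * t ^ (1 - δ) * (1 / 2 - δ) ≤ t * (1 / 2 - δ) :=
        mul_le_mul_of_nonneg_right t3 hc.le
      have e : 12 / (1 / 2 - δ) * t ^ (1 - δ) * (1 / 2 - δ) = 12 * t ^ (1 - δ) := by
        rw [mul_right_comm, div_mul_cancel₀ _ hc.ne']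
      linarith
    have e2 : 3 * C₂ * t ^ δ ≤ (1 / 2 - δ) * t := by
      have : 3 * C₂ / (1 / 2 - δ) * t ^ δ * (1 / 2 - δ) ≤ t * (1 / 2 - δ) :=
        mul_le_mul_of_nonneg_right t4 hc.le
      have e : 3 * C₂ / (1 / 2 - δ) * t ^ δ * (1 / 2 - δ) = 3 * C₂ * t ^ δ := by
        rw [mul_right_comm, div_mul_cancel₀ _ hc.ne']
      linarith
    have e3 : 300 ≤ (1 / 2 - δ) * t := by
      rw [div_le_iff₀ hc] at t8
      linarith
    linarith
  · linarith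

/-- the numerical condition on the probabilities -/
theorem cond3' (t Λ s δ₁ c₁ c₂ lam : ℝ) (q k X R : ℕ) (hΛ : 100 ≤ Λ) (hs : 0 ≤ s)
    (hc₂ : 0 < c₂) (hδ₁ : 0 < δ₁) (hlam : 1 < lam)
    (hρ : (1 + lam) / 2 / lam ^ c₁ ≤ Real.exp (-δ₁))
    (hM : 4 / δ₁ + 2 ≤ Λ) (f6 : t + Λ + 2 ≤ c₂ * s * Λ / 2)
    (hq : (q : ℝ) ≤ Real.exp (δ₁ * Λ / 2))
    (hk1 : (k : ℝ) ≤ Λ) (hk2 : Λ - 1 ≤ k) (hX : (X : ℝ) ≤ Real.exp t)
    (hR : Real.exp (2 * Λ) / 3 ≤ R) :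
    (q : ℝ) * (((1 + lam) / 2) ^ k / lam ^ (c₁ * k)) + X * (2 ^ k * Real.exp (-s) ^ (c₂ * k)) +
      (k : ℝ) ^ 2 / R < 1 := by
  have e2 : Real.exp (-2) ≤ 1 / 4 := by
    rw [Real.exp_neg, ← one_div]
    apply one_div_le_one_div_of_le (by norm_num)
    have h1 : Real.exp 2 = Real.exp 1 * Real.exp 1 := by rw [← Real.exp_add]; norm_num
    have h2 := Real.exp_one_gt_d9
    rw [h1]; nlinarith
  have T1 : (q : ℝ) * (((1 + lam) / 2) ^ k / lam ^ (c₁ * k)) ≤ 1 / 4 := by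
    have h1 : ((1 + lam) / 2) ^ k / lam ^ (c₁ * k) = ((1 + lam) / 2 / lam ^ c₁) ^ k := by
      rw [div_pow ((1 + lam) / 2) (lam ^ c₁) k, Real.rpow_mul_natCast (by linarith)]
    have hpos : 0 ≤ (1 + lam) / 2 / lam ^ c₁ := by positivity
    calc (q : ℝ) * (((1 + lam) / 2) ^ k / lam ^ (c₁ * k))
        = q * ((1 + lam) / 2 / lam ^ c₁) ^ k := by rw [h1]
      _ ≤ Real.exp (δ₁ * Λ / 2) * Real.exp (-δ₁) ^ k := by gcongr
      _ = Real.exp (δ₁ * Λ / 2 + k * (-δ₁)) := by rw [← Real.exp_nat_mul, Real.exp_add]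
      _ ≤ Real.exp (-2) := by
          apply Real.exp_le_exp.2
          have h3 : δ₁ * (Λ - 1) ≤ δ₁ * k := mul_le_mul_of_nonneg_left hk2 hδ₁.le
          have h4 : δ₁ * (4 / δ₁ + 2) ≤ δ₁ * Λ := mul_le_mul_of_nonneg_left hM hδ₁.le
          have h5 : δ₁ * (4 / δ₁ + 2) = 4 + 2 * δ₁ := by field_simp
          linarith
      _ ≤ 1 / 4 := e2
  have T2 : (X : ℝ) * (2 ^ k * Real.exp (-s) ^ (c₂ * k)) ≤ 1 / 4 := by
    have h1 : Real.exp (-s) ^ (c₂ * (k : ℝ)) ≤ Real.exp (-(c₂ * s * Λ / 2)) := by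
      rw [← Real.exp_mul]
      apply Real.exp_le_exp.2
      have h3 : Λ / 2 ≤ (k : ℝ) := by linarith
      have h4 : c₂ * s * (Λ / 2) ≤ c₂ * s * k := mul_le_mul_of_nonneg_left h3 (by positivity)
      linarith
    have h2 : (2 : ℝ) ^ k ≤ Real.exp Λ := by
      calc (2 : ℝ) ^ k ≤ Real.exp 1 ^ k := by
            have := Real.exp_one_gt_d9
            gcongr
            linarith
        _ = Real.exp k := by rw [← Real.exp_nat_mul]; simp
        _ ≤ Real.exp Λ := Real.exp_le_exp.2 hk1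
    calc (X : ℝ) * (2 ^ k * Real.exp (-s) ^ (c₂ * k))
        ≤ Real.exp t * (Real.exp Λ * Real.exp (-(c₂ * s * Λ / 2))) := by gcongr
      _ = Real.exp (t + (Λ + -(c₂ * s * Λ / 2))) := by rw [Real.exp_add, Real.exp_add]
      _ ≤ Real.exp (-2) := by apply Real.exp_le_exp.2; linarith
      _ ≤ 1 / 4 := e2
  have T3 : (k : ℝ) ^ 2 / R ≤ 1 / 4 := by
    have h1 : 12 * Λ ^ 2 ≤ Real.exp (2 * Λ) := by
      have h2 := Real.quadratic_le_exp_of_nonneg (show 0 ≤ Λ by linarith)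
      have h3 : Real.exp (2 * Λ) = Real.exp Λ * Real.exp Λ := by rw [← Real.exp_add]; congr 1; ring
      rw [h3]
      have h4 : 12 ≤ Real.exp Λ := by nlinarith
      have h5 : Λ ^ 2 ≤ Real.exp Λ * 2 := by nlinarith
      nlinarith
    have hR0 : (0 : ℝ) < R := lt_of_lt_of_le (by positivity) hR
    rw [div_le_iff₀ hR0]
    have h6 : (k : ℝ) ^ 2 ≤ Λ ^ 2 := pow_le_pow_left₀ (Nat.cast_nonneg _) hk1 2
    linarith
  linarith

theorem t_MAIN2 (hODD : S_ODD) (hHALF : S_HALF) (hPOS : S_POS) (hTAU : S_TAU) (hLSUM : S_LSUM)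
    (hCOMB : S_COMB2) (hCH : S_CH) (δ θ : ℝ) (hδ0 : 0 < δ) (hδ : δ < 1 / 2) (hθ : 1 / 2 < θ) :
    ∃ C : ℝ, 0 < C ∧ ∃ q₀ : ℕ, ∀ (q : ℕ) [NeZero q] (χ : DirichletCharacter ℂ q), q₀ ≤ q →
      RealPrim q χ → ‖χ.LFunction 1‖ ≤ Real.exp (-(C * Real.log q ^ (δ / (1 - δ)))) →
      ∀ x : ℝ, x = Real.exp ((C * Real.log q) ^ (1 / (1 - δ))) →
      ∃ A : Finset ℕ, Admissible A ∧ (A.card : ℝ) ≤ Real.log x ^ (1 - δ) ∧
        (∀ a ∈ A, (a : ℝ) ≤ x ^ (1 - δ)) ∧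
        ∀ n : ℕ, 0 < n → (n : ℝ) ≤ x →
          ((A.filter (fun a => (n + a).Prime)).card : ℝ) < θ * A.card := by
  classical
  have h1δ : 0 < 1 - δ := by linarith
  obtain ⟨c₁, hc₁⟩ : ∃ c₁ : ℝ, c₁ = 1 / 4 + θ / 2 := ⟨_, rfl⟩
  obtain ⟨c₂, hc₂⟩ : ∃ c₂ : ℝ, c₂ = θ / 2 - 1 / 4 := ⟨_, rfl⟩
  have hc₁0 : 1 / 2 < c₁ := by rw [hc₁]; linarith
  have hc₂0 : 0 < c₂ := by rw [hc₂]; linarith
  obtain ⟨lam, hlam1, hlam2⟩ := hCH c₁ hc₁0
  have hlc : 0 < lam ^ c₁ := by positivity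
  have hρ0 : 0 < (1 + lam) / 2 / lam ^ c₁ := by positivity
  have hρ1 : (1 + lam) / 2 / lam ^ c₁ < 1 := by rwa [div_lt_one hlc]
  obtain ⟨δ₁, hδ₁⟩ : ∃ δ₁ : ℝ, δ₁ = -Real.log ((1 + lam) / 2 / lam ^ c₁) := ⟨_, rfl⟩
  have hδ₁0 : 0 < δ₁ := by
    rw [hδ₁]; have := Real.log_neg hρ0 hρ1; linarith
  have hρe : (1 + lam) / 2 / lam ^ c₁ ≤ Real.exp (-δ₁) := by
    rw [hδ₁, neg_neg, Real.exp_log hρ0]
  obtain ⟨C₂, hC₂⟩ : ∃ C₂ : ℝ, C₂ = 6 / c₂ := ⟨_, rfl⟩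
  have hC₂0 : 0 < C₂ := by rw [hC₂]; positivity
  -- the constant
  have hexp : 0 < 1 - δ / (1 - δ) := by
    have : δ / (1 - δ) < 1 := by rw [div_lt_one h1δ]; linarith
    linarith
  obtain ⟨C, hC1, hC2, hC3⟩ : ∃ C : ℝ, 20 ≤ C ∧ 2 / δ₁ ≤ C ∧
      2 * C₂ + 2 ≤ C ^ (1 - δ / (1 - δ)) := by
    have := ((eventually_ge_atTop (20 : ℝ)).and ((eventually_ge_atTop (2 / δ₁)).and
      ((tendsto_rpow_atTop hexp).eventually_ge_atTop (2 * C₂ + 2)))).exists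
    exact this
  have hC0 : 0 < C := by linarith
  have hpar := param2 δ C₂ (4 / δ₁ + 2) hδ0 hδ hC₂0
  have htend : Tendsto (fun q : ℕ => (C * Real.log q) ^ (1 / (1 - δ))) atTop atTop := by
    refine (tendsto_rpow_atTop (by positivity)).comp ?_
    exact (Real.tendsto_log_atTop.comp tendsto_natCast_atTop_atTop).const_mul_atTop hC0
  have hev := (htend.eventually hpar).and (eventually_gt_atTop 8)
  obtain ⟨q₀, hq₀⟩ := eventually_atTop.1 hev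
  refine ⟨C, hC0, q₀, ?_⟩
  intro q _ χ hq hχ hL x hx
  obtain ⟨⟨f1, f2, fM, f3, f4, f5, f7⟩, hq8⟩ := hq₀ q hq
  obtain ⟨p, q', hp, hp2, hqp, hpq⟩ := hODD q χ hq8 hχ
  set t : ℝ := (C * Real.log q) ^ (1 / (1 - δ)) with ht
  have ht0 : 0 < t := by linarith
  have hqR : (8 : ℝ) < q := by exact_mod_cast hq8
  have hlogq : 0 < Real.log q := Real.log_pos (by linarith)
  have hΛeq : t ^ (1 - δ) = C * Real.log q := by
    rw [ht, ← Real.rpow_mul (by positivity), one_div_mul_cancel h1δ.ne', Real.rpow_one]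
  have hts : (C * Real.log q) ^ (δ / (1 - δ)) = t ^ δ := by
    rw [ht, ← Real.rpow_mul (by positivity)]
    congr 1
    field_simp
  have hsum : t ^ δ * t ^ (1 - δ) = t := by
    rw [← Real.rpow_add ht0]
    simp
  set Λ : ℝ := t ^ (1 - δ) with hΛ
  set s : ℝ := C₂ * t ^ δ with hs
  have hs0 : 0 ≤ s := by positivity
  have hΛ0 : 0 ≤ Λ := by linarith
  have hlogq2 : Real.log q = Λ / C := by rw [hΛeq]; field_simp
  have hqC : (q : ℝ) = Real.exp (Λ / C) := by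
    rw [← hlogq2, Real.exp_log (by linarith)]
  have hqexp : (q : ℝ) ≤ Real.exp (Λ / 20) := by
    rw [hqC]
    apply Real.exp_le_exp.2
    exact div_le_div_of_nonneg_left hΛ0 (by norm_num) hC1
  have hqexp2 : (q : ℝ) ≤ Real.exp (δ₁ * Λ / 2) := by
    rw [hqC]
    apply Real.exp_le_exp.2
    rw [div_le_iff₀ hC0]
    rw [div_le_iff₀ hδ₁0] at hC2
    nlinarith
  have hLb : ‖χ.LFunction 1‖ ≤ Real.exp (-(2 + 2 * s)) := by
    refine hL.trans (Real.exp_le_exp.2 (neg_le_neg ?_))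
    have h1 : C * Real.log q ^ (δ / (1 - δ)) = C ^ (1 - δ / (1 - δ)) * t ^ δ := by
      rw [← hts, Real.mul_rpow hC0.le hlogq.le, ← mul_assoc, ← Real.rpow_add hC0]
      simp
    rw [h1]
    have h2 : (2 * C₂ + 2) * t ^ δ ≤ C ^ (1 - δ / (1 - δ)) * t ^ δ := by gcongr
    rw [hs]
    nlinarith
  have hp3 : 3 ≤ p := by
    have := hp.two_le
    omega
  have hq'0 : 0 < q' := by
    rcases Nat.eq_zero_or_pos q' with h | h
    · subst h; simp at hqp; omega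
    · exact h
  -- the parameters
  obtain ⟨k, hk⟩ : ∃ k, k = ⌊Λ⌋₊ := ⟨_, rfl⟩
  have hk1 : (k : ℝ) ≤ Λ := by rw [hk]; exact Nat.floor_le hΛ0
  have hk2 : Λ - 1 ≤ k := by rw [hk]; exact (Nat.sub_one_lt_floor Λ).le
  have hk3 : 1 ≤ k := by
    have : (1 : ℝ) ≤ k := by linarith
    exact_mod_cast this
  obtain ⟨w, hw⟩ : ∃ w, w = ∏ r ∈ (Nat.primesBelow (k + 1)).erase p, r := ⟨_, rfl⟩
  have hprime : ∀ r ∈ (Nat.primesBelow (k + 1)).erase p, r.Prime := fun r hr =>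
    Nat.prime_of_mem_primesBelow (Finset.mem_of_mem_erase hr)
  have hw0 : 0 < w := by
    rw [hw]
    exact Finset.prod_pos fun r hr => (hprime r hr).pos
  have hw4 : w ≤ 4 ^ k := by
    refine le_trans ?_ (primorial_le_four_pow k)
    rw [hw, primorial]
    refine Finset.prod_le_prod_of_subset_of_one_le' ?_ ?_
    · intro r hr
      have h1 := Finset.mem_of_mem_erase hr
      rw [Nat.mem_primesBelow] at h1
      rw [Finset.mem_filter, Finset.mem_range]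
      exact ⟨h1.1, h1.2⟩
    · intro r hr _
      exact (Finset.mem_filter.1 hr).2.one_lt.le
  obtain ⟨W, hW⟩ : ∃ W, W = q' * w := ⟨_, rfl⟩
  have hW0 : 0 < W := by rw [hW]; positivity
  have hWp : W * p = q * w := by rw [hW, hqp]; ring
  have hlog4 : Real.log 4 ≤ 1.4 := by
    have h1 : Real.log 4 = 2 * Real.log 2 := by
      rw [show (4 : ℝ) = 2 ^ 2 by norm_num, Real.log_pow]; norm_num
    have := Real.log_two_lt_d9
    rw [h1]; linarith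
  have hwexp : (w : ℝ) ≤ Real.exp (1.4 * Λ) := by
    calc (w : ℝ) ≤ 4 ^ k := by exact_mod_cast hw4
      _ = Real.exp (Real.log 4 * k) := by
          rw [Real.exp_mul, Real.exp_log (by norm_num), Real.rpow_natCast]
      _ ≤ Real.exp (1.4 * Λ) := by
          apply Real.exp_le_exp.2
          have : (0 : ℝ) ≤ k := Nat.cast_nonneg _
          nlinarith
  have hWpexp : (W : ℝ) * p ≤ Real.exp (2 * Λ) := by
    have h1 : (W : ℝ) * p = q * w := by exact_mod_cast hWp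
    rw [h1]
    calc (q : ℝ) * w ≤ Real.exp (Λ / 20) * Real.exp (1.4 * Λ) := by gcongr
      _ = Real.exp (Λ / 20 + 1.4 * Λ) := by rw [Real.exp_add]
      _ ≤ Real.exp (2 * Λ) := by apply Real.exp_le_exp.2; linarith
  have hWq : (W : ℝ) ≤ q * w := by
    have h1 : W ≤ q * w := by
      rw [← hWp]
      exact Nat.le_mul_of_pos_right _ hp.pos
    exact_mod_cast h1
  have hWexp : (W : ℝ) ≤ Real.exp (1.5 * Λ) := by
    refine hWq.trans ?_
    calc (q : ℝ) * w ≤ Real.exp (Λ / 20) * Real.exp (1.4 * Λ) := by gcongr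
      _ = Real.exp (Λ / 20 + 1.4 * Λ) := by rw [Real.exp_add]
      _ ≤ Real.exp (1.5 * Λ) := by apply Real.exp_le_exp.2; linarith
  have hqW : (q : ℝ) * W ≤ Real.exp (2 * Λ) := by
    calc (q : ℝ) * W ≤ Real.exp (Λ / 20) * Real.exp (1.5 * Λ) := by gcongr
      _ = Real.exp (Λ / 20 + 1.5 * Λ) := by rw [Real.exp_add]
      _ ≤ Real.exp (2 * Λ) := by apply Real.exp_le_exp.2; linarith
  have hlogW : Real.log W ≤ 2 * Λ := by
    have hWR : (0 : ℝ) < W := by exact_mod_cast hW0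
    rw [Real.log_le_iff_le_exp hWR]
    exact hWexp.trans (Real.exp_le_exp.2 (by linarith))
  have hpexp : (p : ℝ) ≤ Real.exp Λ := by
    have h1 : p ≤ q := by
      rw [hqp]; exact Nat.le_mul_of_pos_right _ hq'0
    calc (p : ℝ) ≤ q := by exact_mod_cast h1
      _ ≤ Real.exp (Λ / 20) := hqexp
      _ ≤ Real.exp Λ := Real.exp_le_exp.2 (by linarith)
  obtain ⟨X, hX⟩ : ∃ X, X = ⌊Real.exp t⌋₊ := ⟨_, rfl⟩
  have hX1 : (X : ℝ) ≤ Real.exp t := by rw [hX]; exact Nat.floor_le (Real.exp_pos _).le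
  obtain ⟨D, hD⟩ : ∃ D, D = ⌊Real.exp (t / 2)⌋₊ := ⟨_, rfl⟩
  have hD1 : (D : ℝ) ≤ Real.exp (t / 2) := by rw [hD]; exact Nat.floor_le (Real.exp_pos _).le
  have hexp2 : 2 ≤ Real.exp (t / 2) := by
    have := Real.add_one_le_exp (t / 2)
    linarith
  have hD2 : Real.exp (t / 2) / 2 ≤ D := by
    have := Nat.sub_one_lt_floor (Real.exp (t / 2))
    rw [← hD] at this
    linarith
  have hD0 : 0 < D := by
    have : (0 : ℝ) < D := by linarith
    exact_mod_cast this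
  have hWpR : (0 : ℝ) < (W : ℝ) * p := by
    have : 0 < W * p := Nat.mul_pos hW0 hp.pos
    exact_mod_cast this
  obtain ⟨B, hB⟩ : ∃ B, B = ⌊Real.exp ((1 - δ) * t) / (W * p)⌋₊ := ⟨_, rfl⟩
  have hBR : (B : ℝ) ≤ Real.exp ((1 - δ) * t) / (W * p) := by
    rw [hB]; exact Nat.floor_le (by positivity)
  have hge2 : Real.exp ((1 - δ) * t - 2 * Λ) ≤ Real.exp ((1 - δ) * t) / (W * p) := by
    rw [le_div_iff₀ hWpR]
    calc Real.exp ((1 - δ) * t - 2 * Λ) * (W * p)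
        ≤ Real.exp ((1 - δ) * t - 2 * Λ) * Real.exp (2 * Λ) := by gcongr
      _ = Real.exp ((1 - δ) * t) := by rw [← Real.exp_add]; congr 1; ring
  have h2le : 2 ≤ Real.exp ((1 - δ) * t - 2 * Λ) := by
    have := Real.add_one_le_exp ((1 - δ) * t - 2 * Λ)
    nlinarith
  have hB2 : Real.exp ((1 - δ) * t) / (W * p) / 2 ≤ B := by
    have := Nat.sub_one_lt_floor (Real.exp ((1 - δ) * t) / (W * p))
    rw [← hB] at this
    linarith
  have hB0 : 1 ≤ B := by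
    have : (0 : ℝ) < B := by linarith
    have : 0 < B := by exact_mod_cast this
    omega
  have hWP : (W : ℝ) * (p * B : ℕ) ≤ Real.exp ((1 - δ) * t) := by
    rw [le_div_iff₀ hWpR] at hBR
    push_cast
    linarith
  have hP2 : Real.exp ((1 - δ) * t - 2 * Λ) / 2 ≤ (p * B : ℕ) := by
    have h1 : (1 : ℝ) ≤ p := by exact_mod_cast hp.one_lt.le
    have h2 : (B : ℝ) ≤ (p * B : ℕ) := by
      push_cast
      have : (0 : ℝ) ≤ B := Nat.cast_nonneg _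
      nlinarith
    linarith
  have c2 := cond2 t Λ s δ ‖χ.LFunction 1‖ p B W D X q hp3 (norm_nonneg _) f2 hs0 hδ0 f3 f4 hLb f1
    hW0 hlogW hqW hpexp hD1 hD2 hX1 hWP hP2
  have hRle : Real.exp (2 * Λ) / 3 ≤ (((p - 1) * B : ℕ) : ℝ) := by
    have h1 : 2 * (p * B) ≤ 3 * ((p - 1) * B) := by
      have : 2 * p ≤ 3 * (p - 1) := by omega
      nlinarith [Nat.mul_le_mul_right B this]
    have h2 : (2 : ℝ) * ((p * B : ℕ) : ℝ) ≤ 3 * (((p - 1) * B : ℕ) : ℝ) := by exact_mod_cast h1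
    have h3 : Real.exp (2 * Λ) ≤ Real.exp ((1 - δ) * t - 2 * Λ) :=
      Real.exp_le_exp.2 (by nlinarith)
    linarith
  have f6 : t + Λ + 2 ≤ c₂ * s * Λ / 2 := by
    have h1 : c₂ * s * Λ / 2 = c₂ * C₂ * (t ^ δ * Λ) / 2 := by rw [hs]; ring
    rw [h1, hsum, hC₂]
    have h2 : c₂ * (6 / c₂) * t / 2 = 3 * t := by field_simp; ring
    rw [h2]; linarith
  have c3 := cond3' t Λ s δ₁ c₁ c₂ lam q k X ((p - 1) * B) f2 hs0 hc₂0 hδ₁0 hlam1 hρe fM f6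
    hqexp2 hk1 hk2 hX1 hRle
  have hη1 : Real.exp (-s) ≤ 1 := by
    rw [Real.exp_le_one_iff]; linarith
  obtain ⟨A, hA1, hA2, hA3, hA4⟩ := core2 hHALF hPOS hTAU hLSUM hCOMB q χ hq8 hχ p q' hp hp2 hqp hpq
    k hk3 W (by rw [hW, hw]) B X D hB0 hD0 (Real.exp (-s)) (Real.exp_pos _) hη1
    θ c₁ c₂ lam (by linarith) (by rw [hc₁, hc₂]; linarith) hlam1.le c2 c3
  have hlogx : Real.log x = t := by rw [hx, Real.log_exp]
  have hxpow : x ^ (1 - δ) = Real.exp ((1 - δ) * t) := by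
    rw [hx, ← Real.exp_mul]; congr 1; ring
  refine ⟨A, hA1, ?_, ?_, ?_⟩
  · rw [hlogx]
    rw [hA2]
    exact hk1
  · intro a ha
    rw [hxpow]
    have h1 : (a : ℝ) ≤ ((W * (p * B) : ℕ) : ℝ) := by exact_mod_cast hA3 a ha
    rw [Nat.cast_mul] at h1
    exact h1.trans hWP
  · intro n hn0 hnx
    rw [hA2]
    refine hA4 n hn0 ?_
    rw [hX]
    exact Nat.le_floor (by rw [← hx]; exact hnx)

end Pool.Agent.E8helper22.SZ
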