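import Pool.Agent.E8helper22.SZ.Core

/-! Project SZ: the choice of the parameters. -/

set_option autoImplicit false

namespace Pool.Agent.E8helper22.SZ

open Finset Filter

theorem ev_rpow {α β : ℝ} (h : α < β) (C : ℝ) : ∀ᶠ t : ℝ in atTop, C * t ^ α ≤ t ^ β := by
  have h1 : Tendsto (fun t : ℝ => t ^ (β - α)) atTop atTop := tendsto_rpow_atTop (by linarith)
  filter_upwards [h1.eventually_ge_atTop C, eventually_gt_atTop 0] with t ht ht0
  have h2 : t ^ β = t ^ (β - α) * t ^ α := by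
    rw [← Real.rpow_add ht0]; congr 1; ring
  rw [h2]
  exact mul_le_mul_of_nonneg_right ht (Real.rpow_nonneg ht0.le _)

theorem param (δ σ κ : ℝ) (hδ0 : 0 < δ) (hδ : δ < 1 / 2) (hσ : δ < σ) (hσκ : σ < κ * (1 - δ))
    (hσ1 : σ < 1) (_hκ : 0 < κ) : ∀ᶠ t : ℝ in atTop,
    100 ≤ t ∧ 100 ≤ t ^ (1 - δ) ∧ 4 * t ^ (1 - δ) + t ^ σ + 100 ≤ (1 / 2 - δ) * t ∧
    1 + 2 * t ^ (1 - δ) ≤ Real.exp (t ^ σ) ∧ 2 + 2 * t ^ σ ≤ (t ^ (1 - δ) / 20) ^ κ ∧
    2 * t + t ^ (1 - δ) + 2 ≤ t ^ (1 - δ) * t ^ σ / 8 := by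
  have hσ0 : 0 < σ := hδ0.trans hσ
  have h1 : Tendsto (fun t : ℝ => t ^ (1 - δ)) atTop atTop := tendsto_rpow_atTop (by linarith)
  have h2 : Tendsto (fun t : ℝ => t ^ σ) atTop atTop := tendsto_rpow_atTop hσ0
  have hc : 0 < 1 / 2 - δ := by linarith
  have g1 := ev_rpow (show 1 - δ < 1 by linarith) (12 / (1 / 2 - δ))
  have g2 := ev_rpow hσ1 (3 / (1 / 2 - δ))
  have g3 := ev_rpow hσκ (4 * (20 : ℝ) ^ κ)
  have g4 := ev_rpow (show (1 : ℝ) < 1 - δ + σ by linarith) 40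
  have g5 : ∀ᶠ t : ℝ in atTop, 1 + 2 * t ≤ Real.exp (t ^ σ) := by
    have h3 := (isLittleO_log_rpow_atTop hσ0).bound (show (0 : ℝ) < 1 / 2 by norm_num)
    filter_upwards [h3, eventually_ge_atTop 1, h2.eventually_ge_atTop (2 * Real.log 3)]
      with t ht ht1 ht2
    have h4 : Real.log t ≤ 1 / 2 * t ^ σ := by
      rw [Real.norm_of_nonneg (Real.log_nonneg ht1),
        Real.norm_of_nonneg (Real.rpow_nonneg (by linarith) _)] at ht
      exact ht
    have h5 : Real.log (3 * t) ≤ t ^ σ := by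
      rw [Real.log_mul (by norm_num) (by linarith)]
      linarith
    calc 1 + 2 * t ≤ 3 * t := by linarith
      _ = Real.exp (Real.log (3 * t)) := (Real.exp_log (by linarith)).symm
      _ ≤ Real.exp (t ^ σ) := Real.exp_le_exp.2 h5
  filter_upwards [eventually_ge_atTop 100, h1.eventually_ge_atTop 100, g1, g2, g3, g4, g5,
    eventually_ge_atTop (300 / (1 / 2 - δ)), h2.eventually_ge_atTop 1] with t t1 t2 t3 t4 t5 t6 t7 t8 t9
  have ht0 : (0 : ℝ) < t := by linarith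
  rw [Real.rpow_one] at t3 t4 t6
  refine ⟨t1, t2, ?_, ?_, ?_, ?_⟩
  · have e1 : 12 * t ^ (1 - δ) ≤ (1 / 2 - δ) * t := by
      have : 12 / (1 / 2 - δ) * t ^ (1 - δ) * (1 / 2 - δ) ≤ t * (1 / 2 - δ) :=
        mul_le_mul_of_nonneg_right t3 hc.le
      have e : 12 / (1 / 2 - δ) * t ^ (1 - δ) * (1 / 2 - δ) = 12 * t ^ (1 - δ) := by
        rw [mul_right_comm, div_mul_cancel₀ _ hc.ne']
      linarith
    have e2 : 3 * t ^ σ ≤ (1 / 2 - δ) * t := by
      have : 3 / (1 / 2 - δ) * t ^ σ * (1 / 2 - δ) ≤ t * (1 / 2 - δ) :=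
        mul_le_mul_of_nonneg_right t4 hc.le
      have e : 3 / (1 / 2 - δ) * t ^ σ * (1 / 2 - δ) = 3 * t ^ σ := by
        rw [mul_right_comm, div_mul_cancel₀ _ hc.ne']
      linarith
    have e3 : 300 ≤ (1 / 2 - δ) * t := by
      rw [div_le_iff₀ hc] at t8
      linarith
    linarith
  · have : t ^ (1 - δ) ≤ t := by
      conv_rhs => rw [← Real.rpow_one t]
      exact Real.rpow_le_rpow_of_exponent_le (by linarith) (by linarith)
    linarith
  · have e1 : (t ^ (1 - δ) / 20) ^ κ = t ^ (κ * (1 - δ)) / (20 : ℝ) ^ κ := by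
      rw [Real.div_rpow (Real.rpow_nonneg ht0.le _) (by norm_num), ← Real.rpow_mul ht0.le]
      congr 2; ring
    rw [e1, le_div_iff₀ (by positivity)]
    have e2 : (0 : ℝ) < (20 : ℝ) ^ κ := by positivity
    nlinarith
  · have e1 : t ^ (1 - δ) * t ^ σ = t ^ (1 - δ + σ) := by rw [← Real.rpow_add ht0]
    have : t ^ (1 - δ) ≤ t := by
      conv_rhs => rw [← Real.rpow_one t]
      exact Real.rpow_le_rpow_of_exponent_le (by linarith) (by linarith)
    rw [e1]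
    linarith

theorem two_three (k : ℕ) : (2 : ℝ) ^ k / (3 : ℝ) ^ (3 * (k : ℝ) / 4) ≤ Real.exp (-(k : ℝ) / 8) := by
  have h1 : Real.exp (1 / 2) ≤ 27 / 16 := by
    have h2 : Real.exp (1 / 2) ^ 2 ≤ (27 / 16) ^ 2 := by
      rw [← Real.exp_nat_mul]
      norm_num
      have := Real.exp_one_lt_d9
      linarith
    exact le_of_sq_le_sq h2 (by norm_num)
  have h3 : Real.exp (1 / 2) ^ ((k : ℝ) / 4) ≤ (27 / 16 : ℝ) ^ ((k : ℝ) / 4) :=
    Real.rpow_le_rpow (Real.exp_pos _).le h1 (by positivity)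
  have h4 : Real.exp (1 / 2) ^ ((k : ℝ) / 4) = Real.exp ((k : ℝ) / 8) := by
    rw [← Real.exp_mul]; congr 1; ring
  have h5 : (27 / 16 : ℝ) ^ ((k : ℝ) / 4) = (3 : ℝ) ^ (3 * (k : ℝ) / 4) / 2 ^ k := by
    rw [Real.div_rpow (by norm_num) (by norm_num)]
    congr 1
    · rw [show (27 : ℝ) = 3 ^ (3 : ℝ) by norm_num, ← Real.rpow_mul (by norm_num)]
      congr 1; ring
    · rw [show (16 : ℝ) = 2 ^ (4 : ℝ) by norm_num, ← Real.rpow_mul (by norm_num)]
      rw [show (4 : ℝ) * ((k : ℝ) / 4) = k by ring, Real.rpow_natCast]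
  rw [h4, h5] at h3
  have h6 : (0 : ℝ) < (3 : ℝ) ^ (3 * (k : ℝ) / 4) := by positivity
  have h7 : (0 : ℝ) < 2 ^ k := by positivity
  rw [neg_div, Real.exp_neg]
  rw [div_le_iff₀ h6, ← div_eq_inv_mul, le_div_iff₀ (Real.exp_pos _)]
  rw [le_div_iff₀ h7] at h3
  linarith

end Pool.Agent.E8helper22.SZ
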